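import Pool.Agent.PQ.Sharp

open Filter Topology Finset

/-!
# At least `j` expansions and integer sequences with few digits
-/

set_option linter.unusedVariables false

namespace Pool.Agent.PQ

variable {p q : ℕ}

/-- every label up to `top` is reached from the root -/
theorem ancestors (hq : 1 ≤ q) (hpq : q < p) : ∀ (k y : ℕ), y ≤ top p q k → ∃ n : ℕ → ℕ, n 0 = 0 ∧
    n k = y ∧ (∀ j < k, p * n j ≤ q * n (j + 1)) ∧ (∀ j < k, q * n (j + 1) < p * n j + p) := by
  have hp : 0 < p := by omega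
  intro k
  induction k with
  | zero =>
    intro y hy
    have hy0 : y = 0 := Nat.le_zero.mp hy
    exact ⟨fun _ => 0, rfl, hy0.symm, fun j hj => by omega, fun j hj => by omega⟩
  | succ k ih =>
    intro y hy
    have hpar : q * y / p ≤ top p q k := by
      have h1 : y ≤ (p * top p q k + (p - 1)) / q := hy
      rw [Nat.le_div_iff_mul_le hq] at h1
      have h2 : q * y < p * (top p q k + 1) := by
        rw [mul_comm q y, mul_add]; omega
      exact Nat.lt_succ_iff.mp (Nat.div_lt_of_lt_mul h2)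
    obtain ⟨n, h0, hk, hlow, hup⟩ := ih _ hpar
    refine ⟨fun j => if j ≤ k then n j else y, by simp [h0], by simp, ?_, ?_⟩
    · intro j hj
      rcases Nat.lt_or_ge j k with h | h
      · simp only [h.le, if_true, Nat.succ_le_of_lt h]
        exact hlow j h
      · obtain rfl : j = k := by omega
        simp only [le_refl, if_true, show ¬ (j + 1 ≤ j) by omega, if_false]
        rw [hk]
        exact Nat.mul_div_le _ _
    · intro j hj
      rcases Nat.lt_or_ge j k with h | h
      · simp only [h.le, if_true, Nat.succ_le_of_lt h]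
        exact hup j h
      · obtain rfl : j = k := by omega
        simp only [le_refl, if_true, show ¬ (j + 1 ≤ j) by omega, if_false]
        rw [hk]
        have e := Nat.lt_mul_div_succ (q * y) hp
        rw [mul_add, mul_one] at e
        exact e

theorem le_top_self (hq : 1 ≤ q) (hpq : q < p) (k : ℕ) : k ≤ top p q k := by
  induction k with
  | zero => exact Nat.zero_le _
  | succ k ih =>
    show k + 1 ≤ (p * top p q k + (p - 1)) / q
    rw [Nat.le_div_iff_mul_le hq]
    have h1 : (k + 1) * q ≤ (top p q k + 1) * q := Nat.mul_le_mul_right _ (by omega)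
    have h2 : q * top p q k ≤ p * top p q k := Nat.mul_le_mul_right _ hpq.le
    have h3 : (top p q k + 1) * q = q * top p q k + q := by ring
    omega

theorem le_expansions_of_A (hq : 1 ≤ q) (hpq : q < p) {x : ℝ} {K j : ℕ}
    (h : (j : ℕ∞) ≤ (A p q x K).encard) : (j : ℕ∞) ≤ (expansions p q x).encard := by
  rw [← pre_encard p q hq hpq] at h
  exact h.trans (Set.encard_image_le _ _)

theorem exists_level (hq : 1 ≤ q) (hpq : q < p) {x : ℝ} {j : ℕ}
    (h : (j : ℕ∞) ≤ (expansions p q x).encard) : ∃ K, (j : ℕ∞) ≤ (A p q x K).encard := by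
  classical
  obtain ⟨F, hF, hc⟩ := Set.exists_subset_encard_eq h
  have hfin : F.Finite := Set.finite_of_encard_eq_coe hc
  have hι : ∀ a b : ℕ → ℕ, ∃ i, a ≠ b → a i ≠ b i := by
    intro a b
    by_cases h : a = b
    · exact ⟨0, fun h' => absurd h h'⟩
    · obtain ⟨i, hi⟩ := Function.ne_iff.mp h
      exact ⟨i, fun _ => hi⟩
  choose ι hι using hι
  refine ⟨(hfin.toFinset ×ˢ hfin.toFinset).sup (fun ab => ι ab.1 ab.2 + 1), ?_⟩
  obtain ⟨K, hK⟩ : ∃ K, K = (hfin.toFinset ×ˢ hfin.toFinset).sup (fun ab => ι ab.1 ab.2 + 1) := ⟨_, rfl⟩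
  rw [← hK, ← pre_encard p q hq hpq, ← hc]
  have hinj : Set.InjOn (fun a : ℕ → ℕ => fun i : Fin K => a i) F := by
    intro a ha b hb hab
    by_contra hne
    have h1 : ι a b + 1 ≤ K := by
      rw [hK]
      exact Finset.le_sup (f := fun ab : (ℕ → ℕ) × (ℕ → ℕ) => ι ab.1 ab.2 + 1)
        (Finset.mem_product.mpr ⟨hfin.mem_toFinset.mpr ha, hfin.mem_toFinset.mpr hb⟩ : (a, b) ∈ _)
    exact hι a b hne (congrFun hab ⟨ι a b, by omega⟩)
  rw [← hinj.encard_image]
  exact Set.encard_le_encard (Set.image_mono hF)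

/-- from expansions to a sequence of integers -/
theorem seq_of_expansions (hq : 1 ≤ q) (hpq : q < p) {j : ℕ} (hj : 2 ≤ j) {x : ℝ}
    (h : (j : ℕ∞) ≤ (expansions p q x).encard) :
    ∃ n : ℕ → ℕ, 0 < n 0 ∧ ∀ i, ∃ a : ℕ, a + (j - 2) * (p - q) < q ∧ q * n (i + 1) = p * n i + a := by
  obtain ⟨K, hK⟩ := exists_level hq hpq h
  -- a level where the number of labels is largest
  obtain ⟨i0, hi0⟩ : ∃ i0, ∀ i, (A p q x (K + i)).ncard ≤ (A p q x (K + i0)).ncard := by
    by_contra hcon
    push Not at hcon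
    have : ∀ t : ℕ, ∃ i, t ≤ (A p q x (K + i)).ncard := by
      intro t
      induction t with
      | zero => exact ⟨0, Nat.zero_le _⟩
      | succ t ih =>
        obtain ⟨i, hi⟩ := ih
        obtain ⟨i', hi'⟩ := hcon i
        exact ⟨i', by omega⟩
    obtain ⟨i, hi⟩ := this (p + 2)
    have := A_card_le (x := x) hq hpq (K + i)
    omega
  obtain ⟨J, hJ⟩ : ∃ J, J = (A p q x (K + i0)).ncard := ⟨_, rfl⟩
  have hjJ : j ≤ J := by
    have h1 : j ≤ (A p q x K).ncard := by
      rw [← (A_finite (x := x) hq hpq K).cast_ncard_eq] at hK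
      exact_mod_cast hK
    have h2 := A_card_mono (x := x) hq hpq (by omega : K ≤ K + i0)
    simp only at h2
    omega
  have hJ' : (J : ℕ∞) ≤ (A p q x (K + i0)).encard := by
    rw [hJ, (A_finite (x := x) hq hpq _).cast_ncard_eq]
  obtain ⟨l1, l2⟩ := labels_j hq hpq (K + i0) J (by omega) x hJ'
  let b : ℕ → ℕ := fun i => (fun m => lo p q (m + 1) - 1)^[i] (sInf (A p q x (K + i0)))
  have hb : ∀ i, b (i + 1) = lo p q (b i + 1) - 1 := fun i => Function.iterate_succ_apply' _ _ _
  have hblk : ∀ i, b i ∈ A p q x (K + i0 + i) ∧ b i + (J - 1) ∈ A p q x (K + i0 + i) := by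
    intro i
    induction i with
    | zero => exact ⟨l1, l2⟩
    | succ i ih =>
      obtain ⟨g1, g2, g3⟩ := block_persist hq hpq (by omega : 2 ≤ J) ih.1 ih.2
      rw [hb]
      exact ⟨g2, g3⟩
  refine ⟨fun i => b i + (J - 1), by show 0 < b 0 + (J - 1); omega, fun i => ?_⟩
  obtain ⟨g1, g2, g3⟩ := block_persist hq hpq (by omega : 2 ≤ J) (hblk i).1 (hblk i).2
  have hr : (J - 2) * (p - q) ≤ q * lo p q (b i + 1) - p * (b i + 1) := by
    by_contra hcon
    push Not at hcon
    have h1 := block_grow hq hpq (by omega : 2 ≤ J) (hblk i).1 (hblk i).2 hcon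
    have h2 := hi0 (i0 + i + 1)
    have h3 := A_card_mono (x := x) hq hpq (by omega : K + i0 ≤ K + i0 + i)
    simp only at h3
    rw [show K + (i0 + i + 1) = K + i0 + i + 1 by omega] at h2
    omega
  obtain ⟨d1, d2⟩ := digit_lt p q hq (b i + 1)
  refine ⟨q * lo p q (b i + 1) - p * (b i + 1) - (J - 2) * (p - q), ?_, ?_⟩
  · have h1 : (j - 2) * (p - q) ≤ (J - 2) * (p - q) := Nat.mul_le_mul_right _ (by omega)
    omega
  · show q * (b (i + 1) + (J - 1)) = p * (b i + (J - 1)) + _
    rw [hb]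
    obtain ⟨l, hl⟩ : ∃ l, lo p q (b i + 1) = l + 1 := ⟨lo p q (b i + 1) - 1, by omega⟩
    obtain ⟨u, hu⟩ : ∃ u, J = u + 2 := ⟨J - 2, by omega⟩
    obtain ⟨d, hd⟩ : ∃ d, p = q + d := ⟨p - q, by omega⟩
    have hm : (J - 2) * (p - q) = u * d := by
      rw [show J - 2 = u by omega, show p - q = d by omega]
    have hl' : q * lo p q (b i + 1) = q * (l + 1) := by rw [hl]
    rw [hm, hl'] at hr
    rw [hl'] at d2
    have e1 : q * (l + 1 + u) = q * (l + 1) + q * u := by ring
    have e2 : p * (b i + 1 + u) = p * (b i + 1) + q * u + u * d := by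
      rw [mul_add, hd]; ring
    rw [hm, hl', show lo p q (b i + 1) - 1 + (J - 1) = l + 1 + u by omega,
      show b i + (J - 1) = b i + 1 + u by omega, e1, e2]
    omega

/-- from a sequence of integers to infinitely many reals -/
theorem infinite_of_seq (hq : 1 ≤ q) (hpq : q < p) {j : ℕ} (hj : 2 ≤ j) {n : ℕ → ℕ} (h0 : 0 < n 0)
    (hn : ∀ i, ∃ a : ℕ, a + (j - 2) * (p - q) < q ∧ q * n (i + 1) = p * n i + a) :
    {x : ℝ | (j : ℕ∞) ≤ (expansions p q x).encard}.Infinite := by
  have hp : 0 < p := by omega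
  have hpr : (0 : ℝ) < p := by exact_mod_cast hp
  have hqr : (0 : ℝ) < q := by exact_mod_cast hq
  have hqp : (q : ℝ) < p := by exact_mod_cast hpq
  have hr0 : (0 : ℝ) < (q : ℝ) / p := by positivity
  have hr1 : (q : ℝ) / p < 1 := by
    rw [div_lt_one hpr]; exact hqp
  have hgrow : ∀ i, i + 1 ≤ n i := by
    intro i
    induction i with
    | zero => exact h0
    | succ i ih =>
      obtain ⟨a, ha, e⟩ := hn i
      have h1 : q * n i < p * n i := Nat.mul_lt_mul_of_pos_right hpq (by omega)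
      have h2 : q * n i < q * n (i + 1) := by omega
      have := lt_of_mul_lt_mul_left h2 (Nat.zero_le _)
      omega
  -- start late
  obtain ⟨v, hv⟩ : ∃ v : ℕ → ℕ, v = fun i => n (j + i) := ⟨_, rfl⟩
  have hvj : ∀ i, j ≤ v i := by
    intro i
    rw [hv]
    have := hgrow (j + i)
    show j ≤ n (j + i)
    omega
  have hvn : ∀ i, ∃ a : ℕ, a + (j - 2) * (p - q) < q ∧ q * v (i + 1) = p * v i + a := by
    intro i
    rw [hv]
    exact hn (j + i)
  have hvlow : ∀ i, p * v i ≤ q * v (i + 1) := by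
    intro i
    obtain ⟨a, ha, e⟩ := hvn i
    omega
  have hvup : ∀ i, q * v (i + 1) ≤ p * v i + q := by
    intro i
    obtain ⟨a, ha, e⟩ := hvn i
    omega
  -- the limit
  have hmono : Monotone (fun i => ((q : ℝ) / p) ^ i * (v i : ℝ)) := by
    apply monotone_nat_of_le_succ
    intro i
    rw [pow_succ]
    have h1 : (p : ℝ) * v i ≤ q * v (i + 1) := by exact_mod_cast hvlow i
    have h2 : (v i : ℝ) ≤ (q : ℝ) / p * v (i + 1) := by
      rw [div_mul_eq_mul_div, le_div_iff₀ hpr]; linarith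
    calc ((q : ℝ) / p) ^ i * (v i : ℝ) ≤ ((q : ℝ) / p) ^ i * ((q : ℝ) / p * v (i + 1)) := by gcongr
      _ = _ := by ring
  have hbdd : BddAbove (Set.range (fun i => ((q : ℝ) / p) ^ i * (v i : ℝ))) := by
    refine ⟨(v 0 : ℝ) + q, ?_⟩
    rintro _ ⟨i, rfl⟩
    simp only
    have key : ((q : ℝ) / p) ^ i * ((v i : ℝ) + q) ≤ (v 0 : ℝ) + q := by
      induction i with
      | zero => simp
      | succ i ih =>
        refine le_trans ?_ ih
        rw [pow_succ, mul_assoc]
        refine mul_le_mul_of_nonneg_left ?_ (by positivity)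
        rw [div_mul_eq_mul_div, div_le_iff₀ hpr]
        have h1 : (q : ℝ) * v (i + 1) ≤ p * v i + q := by exact_mod_cast hvup i
        have h2 : (q : ℝ) + 1 ≤ p := by exact_mod_cast hpq
        nlinarith
    have h3 : 0 ≤ ((q : ℝ) / p) ^ i * (q : ℝ) := by positivity
    rw [mul_add] at key
    linarith
  obtain ⟨c, hc⟩ : ∃ c : ℝ, Tendsto (fun i => ((q : ℝ) / p) ^ i * (v i : ℝ)) atTop (𝓝 c) :=
    ⟨_, tendsto_atTop_ciSup hmono hbdd⟩
  have hc0 : 0 < c := by
    have h1 := hmono.ge_of_tendsto hc 0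
    simp only [pow_zero, one_mul] at h1
    have h2 : (1 : ℝ) ≤ v 0 := by
      have := hvj 0
      exact_mod_cast (by omega : 1 ≤ v 0)
    linarith
  have hcs : ∀ s : ℕ, s < j → Tendsto (fun i => ((q : ℝ) / p) ^ i * ((v i - s : ℕ) : ℝ)) atTop (𝓝 c) := by
    intro s hs
    have h1 := hc.sub ((tendsto_pow_atTop_nhds_zero_of_lt_one hr0.le hr1).mul_const (s : ℝ))
    rw [zero_mul, sub_zero] at h1
    refine h1.congr (fun i => ?_)
    rw [Nat.cast_sub (by have := hvj i; omega)]
    ring
  -- the paths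
  have hpath : ∀ K : ℕ, v 0 ≤ K → ∀ s : ℕ, s < j → v 0 - s ∈ A p q (((q : ℝ) / p) ^ K * c) K := by
    intro K hK s hs
    obtain ⟨w, w0, wK, wlow, wup⟩ := ancestors hq hpq K (v 0 - s)
      ((Nat.sub_le _ _).trans (hK.trans (le_top_self hq hpq K)))
    have slow : ∀ i, p * (v i - s) ≤ q * (v (i + 1) - s) := by
      intro i
      have h1 := hvlow i
      have h2 : q * s ≤ p * s := Nat.mul_le_mul_right _ hpq.le
      rw [Nat.mul_sub, Nat.mul_sub]
      omega
    have sup' : ∀ i, q * (v (i + 1) - s) < p * (v i - s) + p := by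
      intro i
      obtain ⟨a, ha, e⟩ := hvn i
      have hi := hvj i
      have h1 : p * s ≤ p * v i := Nat.mul_le_mul_left _ (by omega)
      obtain ⟨d, hd⟩ : ∃ d, p = q + d := ⟨p - q, by omega⟩
      rw [show p - q = d by omega] at ha
      have h2 : s * d ≤ (j - 2) * d + d := by
        calc s * d ≤ (j - 2 + 1) * d := Nat.mul_le_mul_right _ (by omega)
          _ = (j - 2) * d + d := by ring
      have h3 : p * s = q * s + s * d := by rw [hd]; ring
      rw [Nat.mul_sub, Nat.mul_sub]
      omega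
    refine ⟨fun k => if k ≤ K then w k else v (k - K) - s, ⟨?_, ?_, ?_, ?_⟩, ?_⟩
    · simp [w0]
    · intro k
      rcases lt_trichotomy k K with h | h | h
      · simp only [h.le, if_true, Nat.succ_le_of_lt h]
        exact wlow k h
      · subst h
        have e := slow 0
        simp only [le_refl, if_true, show ¬ (k + 1 ≤ k) by omega, if_false,
          show k + 1 - k = 0 + 1 by omega, wK]
        exact e
      · simp only [not_le.mpr h, if_false, show ¬ (k + 1 ≤ K) by omega, show k + 1 - K = (k - K) + 1 by omega]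
        exact slow _
    · intro k
      rcases lt_trichotomy k K with h | h | h
      · simp only [h.le, if_true, Nat.succ_le_of_lt h]
        exact wup k h
      · subst h
        have e := sup' 0
        simp only [le_refl, if_true, show ¬ (k + 1 ≤ k) by omega, if_false,
          show k + 1 - k = 0 + 1 by omega, wK]
        exact e
      · simp only [not_le.mpr h, if_false, show ¬ (k + 1 ≤ K) by omega, show k + 1 - K = (k - K) + 1 by omega]
        exact sup' _
    · rw [← tendsto_add_atTop_iff_nat (K + 1)]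
      have h1 := ((tendsto_add_atTop_iff_nat 1).mpr (hcs s hs)).const_mul (((q : ℝ) / p) ^ K)
      refine h1.congr (fun i => ?_)
      simp only [show ¬ (i + (K + 1) ≤ K) by omega, if_false, show i + (K + 1) - K = i + 1 by omega]
      rw [← mul_assoc, ← pow_add, show K + (i + 1) = i + (K + 1) by omega]
    · simp [wK]
  refine Set.infinite_of_injective_forall_mem (f := fun K : ℕ => ((q : ℝ) / p) ^ (v 0 + K) * c) ?_ ?_
  · intro K K' hKK
    simp only at hKK
    have h1 : ((q : ℝ) / p) ^ (v 0 + K) = ((q : ℝ) / p) ^ (v 0 + K') := mul_right_cancel₀ hc0.ne' hKK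
    have h2 := (pow_right_strictAnti₀ hr0 hr1).injective h1
    omega
  · intro K
    show (j : ℕ∞) ≤ (expansions p q _).encard
    refine le_expansions_of_A hq hpq (K := v 0 + K) ?_
    have hsub : (fun s => v 0 - s) '' (Set.Iio j) ⊆ A p q (((q : ℝ) / p) ^ (v 0 + K) * c) (v 0 + K) := by
      rintro _ ⟨s, hs, rfl⟩
      exact hpath (v 0 + K) (Nat.le_add_right _ _) s hs
    have hinj : Set.InjOn (fun s => v 0 - s) (Set.Iio j) := by
      intro s hs t ht hst
      have := hvj 0
      simp only [Set.mem_Iio] at hs ht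
      simp only at hst
      omega
    have h1 := Set.encard_le_encard hsub
    rw [hinj.encard_image] at h1
    refine le_trans (le_of_eq ?_) h1
    rw [← Finset.coe_Iio, Set.encard_coe_eq_coe_finsetCard, Nat.card_Iio]

theorem criterion (p q j : ℕ) (hq : 1 ≤ q) (hpq : q < p) (hj : 2 ≤ j) :
    List.TFAE [∃ x : ℝ, (j : ℕ∞) ≤ (expansions p q x).encard,
      {x : ℝ | (j : ℕ∞) ≤ (expansions p q x).encard}.Infinite,
      ∃ n : ℕ → ℕ, 0 < n 0 ∧ ∀ i, ∃ a : ℕ, a + (j - 2) * (p - q) < q ∧ q * n (i + 1) = p * n i + a] := by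
  tfae_have 1 → 3 := fun ⟨x, hx⟩ => seq_of_expansions hq hpq hj hx
  tfae_have 3 → 2 := fun ⟨n, h0, hn⟩ => infinite_of_seq hq hpq hj h0 hn
  tfae_have 2 → 1 := fun h => h.nonempty
  tfae_finish

end Pool.Agent.PQ
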