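import Pool.Agent.PQ.Base

open Filter Topology Finset

/-!
# Prefixes of expansions, largest label, smallest child
-/

namespace Pool.Agent.PQ

/-- the prefixes of length `K` of the expansions of `x` -/
def pre (p q : ℕ) (x : ℝ) (K : ℕ) : Set (Fin K → ℕ) := (fun a : ℕ → ℕ => fun i : Fin K => a i) '' expansions p q x

/-- the largest label at level `k` -/
def top (p q : ℕ) : ℕ → ℕ
  | 0 => 0
  | k + 1 => (p * top p q k + (p - 1)) / q

/-- the smallest child -/
def lo (p q m : ℕ) : ℕ := (p * m + (q - 1)) / q

end Pool.Agent.PQ
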