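import Pool.Agent.PQ.Defs

open Filter Topology Finset

/-!
# The largest path through `m - 1` and the smallest path through `m` have the same value
-/

set_option linter.unusedVariables false

namespace Pool.Agent.PQ

theorem pair_exists (p q : ℕ) (hq : 1 ≤ q) (hpq : q < p) (K m : ℕ) (hm : 1 ≤ m) (hm' : m ≤ top p q K) :
    ∃ x : ℝ, m - 1 ∈ A p q x K ∧ m ∈ A p q x K := by
  have hp : 0 < p := by omega
  have hpr : (0 : ℝ) < p := by exact_mod_cast hp
  have hqr : (0 : ℝ) < q := by exact_mod_cast hq
  have hqp : (q : ℝ) < p := by exact_mod_cast hpq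
  -- ancestors
  have hanc : ∀ (k y : ℕ), y ≤ top p q k → ∃ n : ℕ → ℕ, n 0 = 0 ∧ n k = y ∧ (∀ j < k, p * n j ≤ q * n (j + 1)) ∧
      (∀ j < k, q * n (j + 1) < p * n j + p) := by
    intro k
    induction k with
    | zero =>
      intro y hy
      have hy0 : y = 0 := Nat.le_zero.mp hy
      exact ⟨fun _ => 0, rfl, hy0.symm, fun j hj => by omega, fun j hj => by omega⟩
    | succ k ih =>
      intro y hy
      have hpar : q * y / p ≤ top p q k := by
        have h1 : y ≤ (p * top p q k + (p - 1)) / q := hy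
        rw [Nat.le_div_iff_mul_le hq] at h1
        have h2 : q * y < p * (top p q k + 1) := by
          rw [mul_comm q y, mul_add]; omega
        exact Nat.lt_succ_iff.mp (Nat.div_lt_of_lt_mul h2)
      obtain ⟨n, h0, hk, hlow, hup⟩ := ih _ hpar
      refine ⟨fun j => if j ≤ k then n j else y, by simp [h0], by simp, ?_, ?_⟩
      · intro j hj
        rcases Nat.lt_or_ge j k with h | h
        · simp only [h.le, if_true, Nat.succ_le_of_lt h]
          exact hlow j h
        · obtain rfl : j = k := by omega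
          simp only [le_refl, if_true, show ¬ (j + 1 ≤ j) by omega, if_false]
          rw [hk]
          exact Nat.mul_div_le _ _
      · intro j hj
        rcases Nat.lt_or_ge j k with h | h
        · simp only [h.le, if_true, Nat.succ_le_of_lt h]
          exact hup j h
        · obtain rfl : j = k := by omega
          simp only [le_refl, if_true, show ¬ (j + 1 ≤ j) by omega, if_false]
          rw [hk]
          have e := Nat.lt_mul_div_succ (q * y) hp
          rw [mul_add, mul_one] at e
          exact e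
  -- the two sequences after level K
  let L : ℕ → ℕ := fun i => (lo p q)^[i] m
  have hL0 : L 0 = m := rfl
  have hLs : ∀ i, L (i + 1) = (p * L i + (q - 1)) / q := fun i => Function.iterate_succ_apply' _ _ _
  have hL1 : ∀ i, 1 ≤ L i := by
    intro i
    induction i with
    | zero => exact hm
    | succ i ih =>
      rw [hLs, Nat.le_div_iff_mul_le hq]
      have : p * 1 ≤ p * L i := Nat.mul_le_mul_left _ ih
      omega
  have hLlow : ∀ i, p * L i ≤ q * L (i + 1) := by
    intro i
    rw [hLs]
    have e2 := Nat.lt_mul_div_succ (p * L i + (q - 1)) hq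
    rw [mul_add, mul_one] at e2
    omega
  have hLup : ∀ i, q * L (i + 1) < p * L i + q := by
    intro i
    rw [hLs]
    have e := Nat.mul_div_le (p * L i + (q - 1)) q
    omega
  obtain ⟨n1, a0, aK, alow, aup⟩ := hanc K (m - 1) (by omega)
  obtain ⟨n2, b0, bK, blow, bup⟩ := hanc K m hm'
  -- the limit
  have hmono : Monotone (fun i => ((q : ℝ) / p) ^ i * (L i : ℝ)) := by
    apply monotone_nat_of_le_succ
    intro i
    rw [pow_succ]
    have h1 : (p : ℝ) * L i ≤ q * L (i + 1) := by exact_mod_cast hLlow i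
    have h2 : (L i : ℝ) ≤ (q : ℝ) / p * L (i + 1) := by
      rw [div_mul_eq_mul_div, le_div_iff₀ hpr]; linarith
    calc ((q : ℝ) / p) ^ i * (L i : ℝ) ≤ ((q : ℝ) / p) ^ i * ((q : ℝ) / p * L (i + 1)) := by gcongr
      _ = _ := by ring
  have hbdd : BddAbove (Set.range (fun i => ((q : ℝ) / p) ^ i * (L i : ℝ))) := by
    refine ⟨(m : ℝ) + q, ?_⟩
    rintro _ ⟨i, rfl⟩
    simp only
    have key : ((q : ℝ) / p) ^ i * ((L i : ℝ) + q) ≤ (m : ℝ) + q := by
      induction i with
      | zero => simp [hL0]
      | succ i ih =>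
        refine le_trans ?_ ih
        rw [pow_succ, mul_assoc]
        refine mul_le_mul_of_nonneg_left ?_ (by positivity)
        rw [div_mul_eq_mul_div, div_le_iff₀ hpr]
        have h1 : (q : ℝ) * L (i + 1) ≤ p * L i + q := by exact_mod_cast (hLup i).le
        have h2 : (q : ℝ) + 1 ≤ p := by exact_mod_cast hpq
        nlinarith
    have h3 : 0 ≤ ((q : ℝ) / p) ^ i * (q : ℝ) := by positivity
    rw [mul_add] at key
    linarith
  obtain ⟨ℓ, hℓ⟩ : ∃ ℓ : ℝ, Tendsto (fun i => ((q : ℝ) / p) ^ i * (L i : ℝ)) atTop (𝓝 ℓ) :=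
    ⟨_, tendsto_atTop_ciSup hmono hbdd⟩
  have hr0 : (0 : ℝ) ≤ (q : ℝ) / p := by positivity
  have hr1 : (q : ℝ) / p < 1 := by
    rw [div_lt_one hpr]; exact hqp
  have hℓ' : Tendsto (fun i => ((q : ℝ) / p) ^ i * ((L i - 1 : ℕ) : ℝ)) atTop (𝓝 ℓ) := by
    have h1 := hℓ.sub (tendsto_pow_atTop_nhds_zero_of_lt_one hr0 hr1)
    rw [sub_zero] at h1
    refine h1.congr (fun i => ?_)
    rw [Nat.cast_sub (hL1 i)]
    push_cast
    ring
  have hglue : ∀ (n f : ℕ → ℕ), n 0 = 0 → n K = f 0 → (∀ j < K, p * n j ≤ q * n (j + 1)) →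
      (∀ j < K, q * n (j + 1) < p * n j + p) → (∀ i, p * f i ≤ q * f (i + 1)) →
      (∀ i, q * f (i + 1) < p * f i + p) →
      Tendsto (fun i => ((q : ℝ) / p) ^ i * (f i : ℝ)) atTop (𝓝 ℓ) →
      f 0 ∈ A p q (((q : ℝ) / p) ^ K * ℓ) K := by
    intro n f h0 hK h1 h2 h3 h4 h5
    refine ⟨fun j => if j ≤ K then n j else f (j - K), ⟨?_, ?_, ?_, ?_⟩, ?_⟩
    · simp [h0]
    · intro j
      rcases lt_trichotomy j K with h | h | h
      · simp only [h.le, if_true, Nat.succ_le_of_lt h]
        exact h1 j h
      · subst h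
        have e := h3 0
        rw [← hK] at e
        simpa using e
      · simp only [not_le.mpr h, if_false, show ¬ (j + 1 ≤ K) by omega, show j + 1 - K = (j - K) + 1 by omega]
        exact h3 _
    · intro j
      rcases lt_trichotomy j K with h | h | h
      · simp only [h.le, if_true, Nat.succ_le_of_lt h]
        exact h2 j h
      · subst h
        have e := h4 0
        rw [← hK] at e
        simpa using e
      · simp only [not_le.mpr h, if_false, show ¬ (j + 1 ≤ K) by omega, show j + 1 - K = (j - K) + 1 by omega]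
        exact h4 _
    · rw [← tendsto_add_atTop_iff_nat (K + 1)]
      have h6 := (tendsto_add_atTop_iff_nat 1).mpr h5
      have h7 := h6.const_mul (((q : ℝ) / p) ^ K)
      refine h7.congr (fun i => ?_)
      simp only [show ¬ (i + (K + 1) ≤ K) by omega, if_false, show i + (K + 1) - K = i + 1 by omega]
      rw [← mul_assoc, ← pow_add]
      congr 2
      omega
    · simp [hK]
  refine ⟨((q : ℝ) / p) ^ K * ℓ, ?_, ?_⟩
  · have := hglue n1 (fun i => L i - 1) a0 (by simp [aK, hL0]) alow aup ?_ ?_ hℓ'
    · simpa [hL0] using this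
    · intro i
      have e1 := hLup i
      have e2 := hL1 i
      have e3 := hL1 (i + 1)
      have e4 : p * (L i - 1) = p * L i - p := by rw [Nat.mul_sub, mul_one]
      have e5 : q * (L (i + 1) - 1) = q * L (i + 1) - q := by rw [Nat.mul_sub, mul_one]
      have e6 := hLlow i
      rw [e4, e5]
      omega
    · intro i
      have e1 := hLup i
      have e2 : p * 1 ≤ p * L i := Nat.mul_le_mul_left _ (hL1 i)
      have e3 : q * 1 ≤ q * L (i + 1) := Nat.mul_le_mul_left _ (hL1 (i + 1))
      have e4 : p * (L i - 1) = p * L i - p := by rw [Nat.mul_sub, mul_one]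
      have e5 : q * (L (i + 1) - 1) = q * L (i + 1) - q := by rw [Nat.mul_sub, mul_one]
      rw [e4, e5]
      omega
  · have := hglue n2 L b0 (by rw [bK, hL0]) blow bup hLlow (fun i => by have := hLup i; omega) hℓ
    simpa [hL0] using this

end Pool.Agent.PQ
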