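import Pool.Agent.PQ.Defs

open Filter Topology Finset

/-!
# Prefixes of length `K` and labels at level `K` determine each other
-/

set_option linter.unusedVariables false

namespace Pool.Agent.PQ

/-- the label at level `k` computed from the digits -/
def lab (p q : ℕ) (a : ℕ → ℕ) : ℕ → ℕ
  | 0 => 0
  | k + 1 => (p * lab p q a k + a k) / q

theorem lab_eq {p q : ℕ} (hq : 1 ≤ q) {a n : ℕ → ℕ} (h0 : n 0 = 0)
    (hn : ∀ k, q * n (k + 1) = p * n k + a k) (k : ℕ) : lab p q a k = n k := by
  induction k with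
  | zero => rw [h0]; rfl
  | succ k ih =>
    show (p * lab p q a k + a k) / q = n (k + 1)
    rw [ih, ← hn k, Nat.mul_div_cancel_left _ hq]

theorem lab_congr {p q : ℕ} {a b : ℕ → ℕ} {K : ℕ} (h : ∀ i < K, a i = b i) :
    ∀ k ≤ K, lab p q a k = lab p q b k := by
  intro k
  induction k with
  | zero => intro _; rfl
  | succ k ih =>
    intro hk
    show (p * lab p q a k + a k) / q = (p * lab p q b k + b k) / q
    rw [ih (by omega), h k (by omega)]

/-- extension of a prefix by zeros -/
def ext0 {K : ℕ} (f : Fin K → ℕ) : ℕ → ℕ := fun i => if h : i < K then f ⟨i, h⟩ else 0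

theorem path_of (p q : ℕ) (hq : 1 ≤ q) (hpq : q < p) (x : ℝ) (a : ℕ → ℕ) (ha : a ∈ expansions p q x) :
    ∃ n : ℕ → ℕ, IsPath p q x n ∧ ∀ k, q * n (k + 1) = p * n k + a k := by
  obtain ⟨⟨ha, n, h0, hn⟩, hv⟩ := ha
  refine ⟨n, ⟨h0, ?_, ?_, ?_⟩, hn⟩
  · intro k; rw [hn k]; omega
  · intro k; rw [hn k]; have := ha k; omega
  · exact (value_iff p q hq hpq a n ha h0 hn x).mp hv

theorem of_path (p q : ℕ) (hq : 1 ≤ q) (hpq : q < p) (x : ℝ) (n : ℕ → ℕ) (h : IsPath p q x n) :
    (fun k => q * n (k + 1) - p * n k) ∈ expansions p q x ∧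
      ∀ k, q * n (k + 1) = p * n k + (q * n (k + 1) - p * n k) := by
  have h1 : ∀ k, q * n (k + 1) = p * n k + (q * n (k + 1) - p * n k) := by
    intro k
    have := h.low k
    omega
  have h2 : ∀ k, q * n (k + 1) - p * n k < p := by
    intro k
    have := h.up k
    have := h.low k
    omega
  exact ⟨⟨⟨h2, n, h.zero, h1⟩, (value_iff p q hq hpq _ n h2 h.zero h1 x).mpr h.lim⟩, h1⟩

theorem pre_encard (p q : ℕ) (hq : 1 ≤ q) (hpq : q < p) (x : ℝ) (K : ℕ) :
    (pre p q x K).encard = (A p q x K).encard := by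
  have hp : 0 < p := by omega
  let F : (Fin K → ℕ) → ℕ := fun f => lab p q (ext0 f) K
  have hF : ∀ a : ℕ → ℕ, F (fun i : Fin K => a i) = lab p q a K := by
    intro a
    refine lab_congr (K := K) ?_ K le_rfl
    intro i hi
    simp [ext0, hi]
  have himg : A p q x K = F '' pre p q x K := by
    ext m
    constructor
    · rintro ⟨n, hn, rfl⟩
      obtain ⟨h1, h2⟩ := of_path p q hq hpq x n hn
      exact ⟨_, ⟨_, h1, rfl⟩, (hF _).trans (lab_eq hq hn.zero h2 K)⟩
    · rintro ⟨_, ⟨a, ha, rfl⟩, rfl⟩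
      obtain ⟨n, hn, h2⟩ := path_of p q hq hpq x a ha
      exact ⟨n, hn, ((hF a).trans (lab_eq hq hn.zero h2 K)).symm⟩
  have hinj : Set.InjOn F (pre p q x K) := by
    rintro _ ⟨a, ha, rfl⟩ _ ⟨b, hb, rfl⟩ hab
    obtain ⟨n, hn, h2⟩ := path_of p q hq hpq x a ha
    obtain ⟨n', hn', h2'⟩ := path_of p q hq hpq x b hb
    have hab : n K = n' K := by
      rw [← lab_eq hq hn.zero h2 K, ← lab_eq hq hn'.zero h2' K, ← hF a, ← hF b]
      exact hab
    have hall : ∀ i ≤ K, n (K - i) = n' (K - i) := by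
      intro i
      induction i with
      | zero => intro _; simpa using hab
      | succ i ih =>
        intro hi
        have e := ih (by omega)
        have e3 : K - i = (K - (i + 1)) + 1 := by omega
        rw [e3] at e
        rw [← hn.div_eq hp, ← hn'.div_eq hp, e]
    have hall' : ∀ k ≤ K, n k = n' k := by
      intro k hk
      have := hall (K - k) (by omega)
      rwa [show K - (K - k) = k by omega] at this
    funext i
    have e1 := h2 i
    have e2 := h2' i
    rw [hall' i (by omega), hall' (i + 1) (by omega)] at e1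
    show a i = b i
    omega
  rw [himg, hinj.encard_image]

end Pool.Agent.PQ
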