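import Pool.Agent.PQ.Defs

set_option autoImplicit false

/-!
# Growth of the largest label at level `K`
-/

namespace Pool.Agent.PQ

/-- ROW P7: growth of top -/
theorem top_growth (p q : ℕ) (hq : 1 ≤ q) (hpq : q < p) (K : ℕ) :
    ((p : ℝ) / q) ^ K ≤ top p q K + 1 ∧ (top p q K : ℝ) ≤ p * ((p : ℝ) / q) ^ K := by
  have hqr : (0 : ℝ) < q := by exact_mod_cast hq
  have hd : (1 : ℝ) ≤ (p : ℝ) - q := by
    have : (q : ℝ) + 1 ≤ p := by exact_mod_cast hpq
    linarith
  have hpr : (1 : ℝ) ≤ p := by
    have : (1 : ℝ) ≤ q := by exact_mod_cast hq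
    linarith
  have hr0 : (0 : ℝ) ≤ (p : ℝ) / q := by positivity
  constructor
  · induction K with
    | zero => simp [top]
    | succ k ih =>
      have h1 : p * (top p q k + 1) ≤ q * (top p q (k + 1) + 1) := by
        have h2 : p * top p q k + (p - 1) < q * ((p * top p q k + (p - 1)) / q + 1) :=
          Nat.lt_mul_div_succ _ (by omega)
        change p * (top p q k + 1) ≤ q * ((p * top p q k + (p - 1)) / q + 1)
        rw [Nat.mul_add, Nat.mul_one]
        omega
      have h3 : (p : ℝ) * (top p q k + 1) ≤ q * (top p q (k + 1) + 1) := by exact_mod_cast h1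
      calc ((p : ℝ) / q) ^ (k + 1) = ((p : ℝ) / q) ^ k * ((p : ℝ) / q) := pow_succ _ _
        _ ≤ (top p q k + 1) * ((p : ℝ) / q) := by gcongr
        _ = (p : ℝ) * (top p q k + 1) / q := by ring
        _ ≤ top p q (k + 1) + 1 := by
          rw [div_le_iff₀ hqr]
          linarith
  · have key : ((p : ℝ) - q) * top p q K + (p - 1) ≤ ((p : ℝ) / q) ^ K * (p - 1) := by
      induction K with
      | zero => simp [top]
      | succ k ih =>
        have h1 : q * top p q (k + 1) + 1 ≤ p * top p q k + p := by
          have h2 : q * ((p * top p q k + (p - 1)) / q) ≤ p * top p q k + (p - 1) :=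
            Nat.mul_div_le _ _
          change q * ((p * top p q k + (p - 1)) / q) + 1 ≤ p * top p q k + p
          omega
        have h3 : (q : ℝ) * top p q (k + 1) + 1 ≤ p * top p q k + p := by exact_mod_cast h1
        have h4 : (top p q (k + 1) : ℝ) ≤ (p * top p q k + (p - 1)) / q := by
          rw [le_div_iff₀ hqr]
          linarith
        calc ((p : ℝ) - q) * top p q (k + 1) + (p - 1)
            ≤ ((p : ℝ) - q) * ((p * top p q k + (p - 1)) / q) + (p - 1) := by gcongr
          _ = ((p : ℝ) / q) * (((p : ℝ) - q) * top p q k + (p - 1)) := by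
            field_simp
            ring
          _ ≤ ((p : ℝ) / q) * (((p : ℝ) / q) ^ k * (p - 1)) := by gcongr
          _ = ((p : ℝ) / q) ^ (k + 1) * (p - 1) := by rw [pow_succ]; ring
    have h0 : (0 : ℝ) ≤ top p q K := by positivity
    have hpow : (0 : ℝ) ≤ ((p : ℝ) / q) ^ K := by positivity
    nlinarith

end Pool.Agent.PQ
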