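import Mathlib

/-!
Words over `{0, …, q-1}` of length `J` with at most `B` letters below `d`: at most
`J ^ B * (q - d) ^ J * exp d` of them.
-/

open Finset

namespace Pool.Agent.PQ

/-- the weight of a letter -/
noncomputable def wordWt (q d J : ℕ) (a : Fin q) : ℝ := if (a : ℕ) < d then 1 / (J : ℝ) else 1

theorem wordWt_nonneg (q d J : ℕ) (a : Fin q) : 0 ≤ wordWt q d J a := by
  unfold wordWt; split_ifs <;> positivity

/-- the total weight -/
theorem sum_wordWt (q d J : ℕ) (hd : d < q) :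
    ∑ a : Fin q, wordWt q d J a = ((q : ℝ) - d) + d / J := by
  have h1 : ∑ a : Fin q, wordWt q d J a = ∑ a ∈ range q, (if a < d then 1 / (J : ℝ) else 1) := by
    rw [← Fin.sum_univ_eq_sum_range (fun a => if a < d then 1 / (J : ℝ) else 1) q]
    rfl
  rw [h1, ← Finset.sum_range_add_sum_Ico _ (le_of_lt hd)]
  have h2 : ∑ a ∈ range d, (if a < d then 1 / (J : ℝ) else 1) = d / J := by
    rw [Finset.sum_congr rfl (g := fun _ => 1 / (J : ℝ))
      (fun a ha => if_pos (Finset.mem_range.mp ha))]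
    simp [div_eq_mul_inv]
  have h3 : ∑ a ∈ Ico d q, (if a < d then 1 / (J : ℝ) else 1) = (q : ℝ) - d := by
    rw [Finset.sum_congr rfl (g := fun _ => (1 : ℝ))
      (fun a ha => if_neg (not_lt.mpr (Finset.mem_Ico.mp ha).1))]
    simp [Nat.cast_sub (le_of_lt hd)]
  rw [h2, h3]; ring

/-- ROW P6: words with few small digits. -/
theorem words_count (q d J B : ℕ) (hd : d < q) (hJ : 1 ≤ J) :
    ((univ.filter fun f : Fin J → Fin q => (univ.filter fun i => (f i : ℕ) < d).card ≤ B).card : ℝ) ≤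
      J ^ B * ((q : ℝ) - d) ^ J * Real.exp d := by
  have hJ' : (0 : ℝ) < J := by exact_mod_cast hJ
  have hJ1 : (1 : ℝ) ≤ J := by exact_mod_cast hJ
  have hqd : (1 : ℝ) ≤ (q : ℝ) - d := by
    have : (d : ℝ) + 1 ≤ q := by exact_mod_cast hd
    linarith
  set S := univ.filter fun f : Fin J → Fin q => (univ.filter fun i => (f i : ℕ) < d).card ≤ B
    with hS
  -- each word of `S` has weight at least `J ^ (-B)`
  have h1 : ∀ f ∈ S, (1 / (J : ℝ)) ^ B ≤ ∏ i, wordWt q d J (f i) := by
    intro f hf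
    have hc : (univ.filter fun i => (f i : ℕ) < d).card ≤ B := by
      simpa [hS] using hf
    have : ∏ i, wordWt q d J (f i) = (1 / (J : ℝ)) ^ (univ.filter fun i => (f i : ℕ) < d).card := by
      unfold wordWt
      rw [Finset.prod_ite]
      simp
    rw [this]
    exact pow_le_pow_of_le_one (by positivity) (by rw [div_le_one hJ']; exact hJ1) hc
  have h2 : (S.card : ℝ) * (1 / (J : ℝ)) ^ B ≤ (((q : ℝ) - d) + d / J) ^ J := by
    rw [← sum_wordWt q d J hd, Fintype.sum_pow]
    calc (S.card : ℝ) * (1 / (J : ℝ)) ^ B = ∑ _f ∈ S, (1 / (J : ℝ)) ^ B := by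
            rw [Finset.sum_const, nsmul_eq_mul]
      _ ≤ ∑ f ∈ S, ∏ i, wordWt q d J (f i) := Finset.sum_le_sum h1
      _ ≤ ∑ f : Fin J → Fin q, ∏ i, wordWt q d J (f i) :=
            Finset.sum_le_sum_of_subset_of_nonneg (Finset.subset_univ _)
              (fun f _ _ => Finset.prod_nonneg fun i _ => wordWt_nonneg q d J (f i))
  have h3 : (((q : ℝ) - d) + d / J) ^ J ≤ ((q : ℝ) - d) ^ J * Real.exp d := by
    have h4 : ((q : ℝ) - d) + d / J ≤ ((q : ℝ) - d) * Real.exp (d / J) := by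
      have h5 : (d : ℝ) / J + 1 ≤ Real.exp (d / J) := Real.add_one_le_exp _
      have h6 : 0 ≤ (d : ℝ) / J := by positivity
      nlinarith
    calc (((q : ℝ) - d) + d / J) ^ J ≤ (((q : ℝ) - d) * Real.exp (d / J)) ^ J :=
            pow_le_pow_left₀ (by positivity) h4 J
      _ = ((q : ℝ) - d) ^ J * Real.exp d := by
            rw [mul_pow, ← Real.exp_nat_mul]
            congr 2
            field_simp
  have h7 : (S.card : ℝ) = (J : ℝ) ^ B * ((S.card : ℝ) * (1 / (J : ℝ)) ^ B) := by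
    rw [one_div, inv_pow]
    field_simp
  rw [h7, mul_assoc]
  exact mul_le_mul_of_nonneg_left (h2.trans h3) (by positivity)

end Pool.Agent.PQ
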