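import Pool.Agent.PQ.Mid
import Pool.Agent.PQ.Pre
import Pool.Agent.PQ.Pair
import Pool.Agent.PQ.Words
import Pool.Agent.PQ.Top

open Filter Topology Finset

/-!
# Reals with three expansions are sparse among the reals with two
-/

set_option linter.unusedVariables false

namespace Pool.Agent.PQ

variable {p q : ℕ}

theorem two_labels (hq : 1 ≤ q) (hpq : q < p) (K : ℕ) (x : ℝ) (h : 2 ≤ (A p q x K).encard) :
    sInf (A p q x K) ∈ A p q x K ∧ sInf (A p q x K) + 1 ∈ A p q x K := by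
  have hfin := A_finite (x := x) hq hpq K
  have hn : 2 ≤ (A p q x K).ncard := by
    rw [← hfin.cast_ncard_eq] at h
    exact_mod_cast h
  have hne : (A p q x K).Nonempty := by
    rw [← Set.ncard_pos hfin]; omega
  have h1 := Nat.sInf_mem hne
  obtain ⟨w, hw, hwne⟩ := Set.exists_ne_of_one_lt_ncard (by omega : 1 < (A p q x K).ncard) (sInf (A p q x K))
  have h2 := Nat.sInf_le hw
  exact ⟨h1, A_ordConnected hq hpq K _ w _ h1 hw (by omega) (by omega)⟩

theorem three_labels (hq : 1 ≤ q) (hpq : q < p) (K : ℕ) (x : ℝ) (h : 3 ≤ (A p q x K).encard) :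
    sInf (A p q x K) ∈ A p q x K ∧ sInf (A p q x K) + 1 ∈ A p q x K ∧ sInf (A p q x K) + 2 ∈ A p q x K := by
  have h2' : 2 ≤ (A p q x K).encard := le_trans (by norm_num) h
  obtain ⟨h1, h2⟩ := two_labels hq hpq K x h2'
  refine ⟨h1, h2, ?_⟩
  have hfin := A_finite (x := x) hq hpq K
  have hn : 3 ≤ (A p q x K).ncard := by
    rw [← hfin.cast_ncard_eq] at h
    exact_mod_cast h
  by_contra hcon
  have hsub : A p q x K ⊆ Set.Icc (sInf (A p q x K)) (sInf (A p q x K) + 1) := by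
    intro w hw
    refine ⟨Nat.sInf_le hw, ?_⟩
    by_contra hlt
    push Not at hlt
    exact hcon (A_ordConnected hq hpq K _ w _ h1 hw (by omega) (by omega))
  have h3 := Set.ncard_le_ncard hsub (Set.finite_Icc _ _)
  rw [← Finset.coe_Icc, Set.ncard_coe_finset, Nat.card_Icc] at h3
  omega

theorem inj_two (hq : 1 ≤ q) (hpq : q < p) (K : ℕ) :
    Set.InjOn (fun x : ℝ => sInf (A p q x K)) {x : ℝ | 2 ≤ (A p q x K).encard} := by
  intro x hx y hy hxy
  obtain ⟨h1, h2⟩ := two_labels hq hpq K x hx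
  obtain ⟨h3, h4⟩ := two_labels hq hpq K y hy
  simp only at hxy
  rw [← hxy] at h3 h4
  exact pair_unique p q hq hpq K _ x y h1 h2 h3 h4

theorem fin_two (hq : 1 ≤ q) (hpq : q < p) (K : ℕ) : {x : ℝ | 2 ≤ (A p q x K).encard}.Finite := by
  refine Set.Finite.of_finite_image ((Set.finite_Iic (top p q K)).subset ?_) (inj_two hq hpq K)
  rintro _ ⟨x, hx, rfl⟩
  exact le_top p q hq hpq K _ x (two_labels hq hpq K x hx).1

theorem lower_two (hq : 1 ≤ q) (hpq : q < p) (K : ℕ) :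
    top p q K ≤ (p + 1) * {x : ℝ | 2 ≤ (A p q x K).encard}.ncard := by
  classical
  have hex : ∀ m : ℕ, ∃ x : ℝ, 1 ≤ m → m ≤ top p q K → m - 1 ∈ A p q x K ∧ m ∈ A p q x K := by
    intro m
    by_cases h : 1 ≤ m ∧ m ≤ top p q K
    · obtain ⟨x, hx⟩ := pair_exists p q hq hpq K m h.1 h.2
      exact ⟨x, fun _ _ => hx⟩
    · exact ⟨0, fun h1 h2 => absurd ⟨h1, h2⟩ h⟩
  choose ψ hψ using hex
  have hcard := Finset.card_le_mul_card_image (f := ψ) (Finset.Icc 1 (top p q K)) (p + 1) ?_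
  · rw [Nat.card_Icc, Nat.add_sub_cancel] at hcard
    refine hcard.trans (Nat.mul_le_mul_left _ ?_)
    rw [← Set.ncard_coe_finset]
    refine Set.ncard_le_ncard ?_ (fin_two hq hpq K)
    intro x hx
    rw [Finset.mem_coe, Finset.mem_image] at hx
    obtain ⟨m, hm, rfl⟩ := hx
    rw [Finset.mem_Icc] at hm
    obtain ⟨h1, h2⟩ := hψ m hm.1 hm.2
    show 2 ≤ (A p q (ψ m) K).encard
    have h3 : ({m - 1, m} : Set ℕ).encard ≤ (A p q (ψ m) K).encard :=
      Set.encard_le_encard (Set.insert_subset h1 (Set.singleton_subset_iff.mpr h2))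
    rwa [Set.encard_pair (by omega)] at h3
  · intro x _
    have hsub : ((Finset.filter (fun m => ψ m = x) (Finset.Icc 1 (top p q K)) : Finset ℕ) : Set ℕ) ⊆ A p q x K := by
      intro m hm
      rw [Finset.mem_coe, Finset.mem_filter, Finset.mem_Icc] at hm
      obtain ⟨⟨h1, h2⟩, rfl⟩ := hm
      exact (hψ m h1 h2).2
    have h1 := Set.ncard_le_ncard hsub (A_finite hq hpq K)
    rw [Set.ncard_coe_finset] at h1
    exact h1.trans (A_card_le hq hpq K)

theorem upper_three (hq : 1 ≤ q) (hpq : q < p) (hcop : Nat.Coprime p q) (hd : p - q < q) (K J : ℕ)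
    (hJ : 1 ≤ J) (hJ' : top p q K < q ^ J) :
    ({x : ℝ | 3 ≤ (A p q x K).encard}.ncard : ℝ) ≤
      J ^ (p + 1) * ((q : ℝ) - (p - q : ℕ)) ^ J * Real.exp ((p - q : ℕ) : ℝ) := by
  classical
  refine le_trans ?_ (words_count q (p - q) J (p + 1) hd hJ)
  have hsub3 : {x : ℝ | 3 ≤ (A p q x K).encard} ⊆ {x : ℝ | 2 ≤ (A p q x K).encard} := by
    intro x hx
    have h3 : 3 ≤ (A p q x K).encard := hx
    exact le_trans (by norm_num : (2 : ℕ∞) ≤ 3) h3
  have hs : ∀ (y i : ℕ), (lo p q)^[i + 1] y = lo p q ((lo p q)^[i] y) := fun y i =>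
    Function.iterate_succ_apply' _ _ _
  -- the word of a label
  let word : ℕ → (Fin J → Fin q) := fun m i =>
    ⟨q * (lo p q)^[(i : ℕ) + 1] m - p * (lo p q)^[(i : ℕ)] m, by
      rw [hs]; exact (digit_lt p q hq _).1⟩
  have hmaps : ∀ x ∈ {x : ℝ | 3 ≤ (A p q x K).encard}, word (sInf (A p q x K) + 1) ∈
      ((univ.filter fun f : Fin J → Fin q => (univ.filter fun i => (f i : ℕ) < p - q).card ≤ p + 1 :
        Finset (Fin J → Fin q)) : Set (Fin J → Fin q)) := by
    intro x hx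
    obtain ⟨h1, h2, h3⟩ := three_labels hq hpq K x hx
    rw [Finset.mem_coe, Finset.mem_filter]
    refine ⟨Finset.mem_univ _, ?_⟩
    have h4 := few_branch p q hq hpq K (sInf (A p q x K) + 1) x (by omega) (by simpa using h1) h2 h3 J
    refine le_trans (le_of_eq ?_) h4
    rw [← Finset.card_map (Fin.valEmbedding (n := J))]
    congr 1
    ext i
    simp only [Finset.mem_map, Finset.mem_filter, Finset.mem_univ, true_and, Finset.mem_range,
      Fin.valEmbedding_apply, word]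
    constructor
    · rintro ⟨j, hj, rfl⟩
      exact ⟨j.2, hj⟩
    · rintro ⟨hi, hj⟩
      exact ⟨⟨i, hi⟩, hj, rfl⟩
  have hinj : Set.InjOn (fun x : ℝ => word (sInf (A p q x K) + 1)) {x : ℝ | 3 ≤ (A p q x K).encard} := by
    intro x hx y hy hxy
    refine inj_two hq hpq K (hsub3 hx) (hsub3 hy) ?_
    have hx' := le_top p q hq hpq K _ x (three_labels hq hpq K x hx).2.1
    have hy' := le_top p q hq hpq K _ y (three_labels hq hpq K y hy).2.1
    have h5 := digits_inj p q hq hcop J _ _ (lt_of_le_of_lt hx' hJ') (lt_of_le_of_lt hy' hJ') (fun i hi => by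
      have := congrFun hxy ⟨i, hi⟩
      simpa [word] using congrArg Fin.val this)
    simp only
    omega
  have h6 := Set.ncard_le_ncard_of_injOn _ hmaps hinj (Finset.finite_toSet _)
  rw [Set.ncard_coe_finset] at h6
  exact_mod_cast h6

theorem final (p q : ℕ) (hpq : q < p) (hp : p + 1 < 2 * q) (hcop : Nat.Coprime p q) :
    ∃ (B : ℕ) (c C : ℝ), 0 < c ∧ ∀ K : ℕ, 1 ≤ K →
      {x : ℝ | 2 ≤ (pre p q x K).encard}.Finite ∧
      c * ((p : ℝ) / q) ^ K ≤ {x : ℝ | 2 ≤ (pre p q x K).encard}.ncard ∧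
      ({x : ℝ | 3 ≤ (pre p q x K).encard}.ncard : ℝ) ≤
        C * (K : ℝ) ^ B * (((p : ℝ) / q) ^ K) ^ (Real.log (2 * q - p) / Real.log q) := by
  have hq : 1 ≤ q := by omega
  have hq2 : 2 ≤ q := by omega
  have hpq' : (q : ℝ) < p := by exact_mod_cast hpq
  have hqr : (2 : ℝ) ≤ q := by exact_mod_cast hq2
  have hpr : (0 : ℝ) < p := by linarith
  have h2qp : (2 : ℝ) ≤ 2 * q - p := by
    have : (p : ℝ) + 2 ≤ 2 * q := by exact_mod_cast (by omega : p + 2 ≤ 2 * q)
    linarith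
  obtain ⟨θ, hθ⟩ : ∃ θ : ℝ, θ = Real.log (2 * q - p) / Real.log q := ⟨_, rfl⟩
  have hlogq : 0 < Real.log q := Real.log_pos (by linarith)
  have hθ0 : 0 ≤ θ := by
    rw [hθ]
    exact div_nonneg (Real.log_nonneg (by linarith)) hlogq.le
  have hqθ : (q : ℝ) ^ θ = 2 * q - p := by
    rw [Real.rpow_def_of_pos (by linarith), hθ, mul_div_cancel₀ _ hlogq.ne', Real.exp_log (by linarith)]
  refine ⟨p + 1, 1 / (2 * (p + 1)), ((p : ℝ) + 2) ^ (p + 1) * ((q : ℝ) * p) ^ θ * Real.exp ((p - q : ℕ) : ℝ),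
    by positivity, fun K hK => ?_⟩
  rw [← hθ]
  have he2 : {x : ℝ | 2 ≤ (pre p q x K).encard} = {x : ℝ | 2 ≤ (A p q x K).encard} := by
    ext x
    show 2 ≤ (pre p q x K).encard ↔ 2 ≤ (A p q x K).encard
    rw [pre_encard p q hq hpq]
  have he3 : {x : ℝ | 3 ≤ (pre p q x K).encard} = {x : ℝ | 3 ≤ (A p q x K).encard} := by
    ext x
    show 3 ≤ (pre p q x K).encard ↔ 3 ≤ (A p q x K).encard
    rw [pre_encard p q hq hpq]
  rw [he2, he3]
  obtain ⟨g1, g2⟩ := top_growth p q hq hpq K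
  have hratio : 1 < (p : ℝ) / q := by
    rw [one_lt_div (by linarith)]; exact hpq'
  have hpow : 1 < ((p : ℝ) / q) ^ K := one_lt_pow₀ hratio (by omega)
  have htop : 1 ≤ top p q K := by
    have : (0 : ℝ) < top p q K := by linarith
    exact_mod_cast this
  have htopr : (1 : ℝ) ≤ top p q K := by exact_mod_cast htop
  refine ⟨fin_two hq hpq K, ?_, ?_⟩
  · have h1 : (top p q K : ℝ) ≤ (p + 1) * {x : ℝ | 2 ≤ (A p q x K).encard}.ncard := by
      exact_mod_cast lower_two hq hpq K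
    rw [one_div_mul_eq_div, div_le_iff₀ (by positivity)]
    nlinarith
  · -- the number of digits
    obtain ⟨J, hJdef⟩ : ∃ J, J = Nat.log q (top p q K) + 1 := ⟨_, rfl⟩
    have hJ1 : 1 ≤ J := by omega
    have hJ2 : top p q K < q ^ J := by
      rw [hJdef]; exact Nat.lt_pow_succ_log_self (by omega) _
    have hJ3 : q ^ (J - 1) ≤ top p q K := by
      rw [hJdef, Nat.add_sub_cancel]
      exact Nat.pow_log_le_self q (by omega)
    have hJ3r : (q : ℝ) ^ (J - 1) ≤ p * ((p : ℝ) / q) ^ K := by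
      have : ((q ^ (J - 1) : ℕ) : ℝ) ≤ top p q K := by exact_mod_cast hJ3
      push_cast at this
      linarith
    have hJK : (J : ℝ) ≤ (p + 2) * K := by
      have h1 : (p : ℝ) / q ≤ 2 := by
        rw [div_le_iff₀ (by linarith)]; linarith
      have h2 : (2 : ℝ) ^ (J - 1) ≤ 2 ^ (p + K) := by
        calc (2 : ℝ) ^ (J - 1) ≤ (q : ℝ) ^ (J - 1) := pow_le_pow_left₀ (by norm_num) hqr _
          _ ≤ p * ((p : ℝ) / q) ^ K := hJ3r
          _ ≤ 2 ^ p * 2 ^ K := by
            refine mul_le_mul ?_ (pow_le_pow_left₀ (by positivity) h1 _) (by positivity) (by positivity)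
            exact_mod_cast (Nat.lt_two_pow_self (n := p)).le
          _ = 2 ^ (p + K) := by rw [pow_add]
      have h3 : J - 1 ≤ p + K := by
        exact_mod_cast (pow_le_pow_iff_right₀ (by norm_num : (1 : ℝ) < 2)).mp h2
      have h4 : J ≤ (p + 2) * K := by
        have h5 : p ≤ p * K := Nat.le_mul_of_pos_right _ (by omega)
        rw [add_mul]
        omega
      exact_mod_cast h4
    have hup := upper_three hq hpq hcop (by omega) K J hJ1 hJ2
    have hqd : ((q : ℝ) - (p - q : ℕ)) = (q : ℝ) ^ θ := by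
      rw [hqθ, Nat.cast_sub hpq.le]; ring
    rw [hqd] at hup
    have hpowJ : ((q : ℝ) ^ θ) ^ J ≤ ((q : ℝ) * p) ^ θ * (((p : ℝ) / q) ^ K) ^ θ := by
      rw [← Real.rpow_natCast, ← Real.rpow_mul (by linarith), mul_comm θ, Real.rpow_mul (by linarith),
        Real.rpow_natCast, ← Real.mul_rpow (by positivity) (by positivity)]
      refine Real.rpow_le_rpow (by positivity) ?_ hθ0
      calc (q : ℝ) ^ J = q * q ^ (J - 1) := by
            rw [← pow_succ']; congr 1; omega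
        _ ≤ q * (p * ((p : ℝ) / q) ^ K) := mul_le_mul_of_nonneg_left hJ3r (by linarith)
        _ = q * p * ((p : ℝ) / q) ^ K := by ring
    refine hup.trans ?_
    have hJB : (J : ℝ) ^ (p + 1) ≤ (p + 2) ^ (p + 1) * (K : ℝ) ^ (p + 1) := by
      rw [← mul_pow]
      exact pow_le_pow_left₀ (by positivity) hJK _
    have hexp : 0 < Real.exp ((p - q : ℕ) : ℝ) := Real.exp_pos _
    calc (J : ℝ) ^ (p + 1) * ((q : ℝ) ^ θ) ^ J * Real.exp ((p - q : ℕ) : ℝ)
        ≤ ((p + 2) ^ (p + 1) * (K : ℝ) ^ (p + 1)) * (((q : ℝ) * p) ^ θ * (((p : ℝ) / q) ^ K) ^ θ) *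
          Real.exp ((p - q : ℕ) : ℝ) := by
          refine mul_le_mul_of_nonneg_right ?_ hexp.le
          exact mul_le_mul hJB hpowJ (by positivity) (by positivity)
      _ = _ := by ring

end Pool.Agent.PQ
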