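import Pool.Agent.PQ.Mid
import Pool.Agent.PQ.Pre
import Pool.Agent.PQ.Pair
import Pool.Agent.PQ.Words
import Pool.Agent.PQ.Top

open Filter Topology Finset

/-!
# The numbers of reals with `j` expansions which differ within the first `K` digits
-/

set_option linter.unusedVariables false

namespace Pool.Agent.PQ

variable {p q : ℕ}

/-- `j` consecutive labels -/
theorem labels_j (hq : 1 ≤ q) (hpq : q < p) (K j : ℕ) (hj : 2 ≤ j) (x : ℝ) (h : (j : ℕ∞) ≤ (A p q x K).encard) :
    sInf (A p q x K) ∈ A p q x K ∧ sInf (A p q x K) + (j - 1) ∈ A p q x K := by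
  have hfin := A_finite (x := x) hq hpq K
  have hn : j ≤ (A p q x K).ncard := by
    rw [← hfin.cast_ncard_eq] at h
    exact_mod_cast h
  have hne : (A p q x K).Nonempty := by
    rw [← Set.ncard_pos hfin]; omega
  have h1 := Nat.sInf_mem hne
  refine ⟨h1, ?_⟩
  by_contra hcon
  have hsub : A p q x K ⊆ Set.Icc (sInf (A p q x K)) (sInf (A p q x K) + (j - 2)) := by
    intro w hw
    refine ⟨Nat.sInf_le hw, ?_⟩
    by_contra hlt
    push Not at hlt
    exact hcon (A_ordConnected hq hpq K _ w _ h1 hw (by omega) (by omega))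
  have h3 := Set.ncard_le_ncard hsub (Set.finite_Icc _ _)
  rw [← Finset.coe_Icc, Set.ncard_coe_finset, Nat.card_Icc] at h3
  omega

theorem mem_between (hq : 1 ≤ q) (hpq : q < p) {K u w m : ℕ} {x : ℝ} (hu : u ∈ A p q x K)
    (hw : w ∈ A p q x K) (h1 : u ≤ m) (h2 : m ≤ w) : m ∈ A p q x K := by
  rcases h1.eq_or_lt with h | h
  · rw [← h]; exact hu
  · exact A_ordConnected hq hpq K u w m hu hw h h2

theorem inj_two (hq : 1 ≤ q) (hpq : q < p) (K : ℕ) :
    Set.InjOn (fun x : ℝ => sInf (A p q x K)) {x : ℝ | 2 ≤ (A p q x K).encard} := by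
  intro x hx y hy hxy
  obtain ⟨h1, h2⟩ := labels_j hq hpq K 2 le_rfl x hx
  obtain ⟨h3, h4⟩ := labels_j hq hpq K 2 le_rfl y hy
  simp only at hxy
  rw [← hxy] at h3 h4
  exact pair_unique p q hq hpq K _ x y h1 h2 h3 h4

theorem fin_two (hq : 1 ≤ q) (hpq : q < p) (K : ℕ) : {x : ℝ | 2 ≤ (A p q x K).encard}.Finite := by
  refine Set.Finite.of_finite_image ((Set.finite_Iic (top p q K)).subset ?_) (inj_two hq hpq K)
  rintro _ ⟨x, hx, rfl⟩
  exact le_top p q hq hpq K _ x (labels_j hq hpq K 2 le_rfl x hx).1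

theorem lower_two (hq : 1 ≤ q) (hpq : q < p) (K : ℕ) :
    top p q K ≤ (p + 1) * {x : ℝ | 2 ≤ (A p q x K).encard}.ncard := by
  classical
  have hex : ∀ m : ℕ, ∃ x : ℝ, 1 ≤ m → m ≤ top p q K → m - 1 ∈ A p q x K ∧ m ∈ A p q x K := by
    intro m
    by_cases h : 1 ≤ m ∧ m ≤ top p q K
    · obtain ⟨x, hx⟩ := pair_exists p q hq hpq K m h.1 h.2
      exact ⟨x, fun _ _ => hx⟩
    · exact ⟨0, fun h1 h2 => absurd ⟨h1, h2⟩ h⟩
  choose ψ hψ using hex
  have hcard := Finset.card_le_mul_card_image (f := ψ) (Finset.Icc 1 (top p q K)) (p + 1) ?_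
  · rw [Nat.card_Icc, Nat.add_sub_cancel] at hcard
    refine hcard.trans (Nat.mul_le_mul_left _ ?_)
    rw [← Set.ncard_coe_finset]
    refine Set.ncard_le_ncard ?_ (fin_two hq hpq K)
    intro x hx
    rw [Finset.mem_coe, Finset.mem_image] at hx
    obtain ⟨m, hm, rfl⟩ := hx
    rw [Finset.mem_Icc] at hm
    obtain ⟨h1, h2⟩ := hψ m hm.1 hm.2
    show 2 ≤ (A p q (ψ m) K).encard
    have h3 : ({m - 1, m} : Set ℕ).encard ≤ (A p q (ψ m) K).encard :=
      Set.encard_le_encard (Set.insert_subset h1 (Set.singleton_subset_iff.mpr h2))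
    rwa [Set.encard_pair (by omega)] at h3
  · intro x _
    have hsub : ((Finset.filter (fun m => ψ m = x) (Finset.Icc 1 (top p q K)) : Finset ℕ) : Set ℕ) ⊆ A p q x K := by
      intro m hm
      rw [Finset.mem_coe, Finset.mem_filter, Finset.mem_Icc] at hm
      obtain ⟨⟨h1, h2⟩, rfl⟩ := hm
      exact (hψ m h1 h2).2
    have h1 := Set.ncard_le_ncard hsub (A_finite hq hpq K)
    rw [Set.ncard_coe_finset] at h1
    exact h1.trans (A_card_le hq hpq K)

theorem lo_mono (p q : ℕ) {y z : ℕ} (h : y ≤ z) : lo p q y ≤ lo p q z := by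
  unfold lo
  exact Nat.div_le_div_right (Nat.add_le_add_right (Nat.mul_le_mul_left _ h) _)

theorem lo_add (hq : 1 ≤ q) (hpq : q < p) (y s : ℕ) : lo p q y + s ≤ lo p q (y + s) := by
  unfold lo
  rw [Nat.le_div_iff_mul_le hq, add_mul, mul_comm s q, mul_add]
  have h1 := Nat.div_mul_le_self (p * y + (q - 1)) q
  have h2 : q * s ≤ p * s := Nat.mul_le_mul_right _ hpq.le
  omega

/-- small digits are rare on the smallest path from the second of `j` consecutive labels of `x` -/
theorem few_small (hq : 1 ≤ q) (hpq : q < p) (K m j : ℕ) (hj : 2 ≤ j) (x : ℝ) (hm : 1 ≤ m)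
    (h1 : m - 1 ∈ A p q x K) (h3 : m + (j - 2) ∈ A p q x K) (J : ℕ) :
    ((range J).filter fun i => q * (lo p q)^[i + 1] m - p * (lo p q)^[i] m < (j - 2) * (p - q)).card ≤ p + 1 := by
  obtain ⟨n1, a1, e1⟩ := h1
  obtain ⟨n3, a3, e3⟩ := h3
  have hp : 0 < p := by omega
  have hs : ∀ (y i : ℕ), (lo p q)^[i + 1] y = lo p q ((lo p q)^[i] y) := fun y i =>
    Function.iterate_succ_apply' _ _ _
  have hlow : ∀ i, n1 (K + i) < (lo p q)^[i] m := by
    intro i
    induction i with
    | zero => show n1 K < m; omega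
    | succ i ih =>
      rw [hs]
      have f1 := a1.up (K + i)
      have f2 := (digit_lt p q hq ((lo p q)^[i] m)).2
      have f3 : p * n1 (K + i) + p ≤ p * (lo p q)^[i] m := by
        calc p * n1 (K + i) + p = p * (n1 (K + i) + 1) := by ring
          _ ≤ _ := Nat.mul_le_mul_left _ ih
      have f4 : q * n1 (K + i + 1) < q * lo p q ((lo p q)^[i] m) := by omega
      exact lt_of_mul_lt_mul_left f4 (Nat.zero_le _)
  have hupp : ∀ i, (lo p q)^[i] m + (j - 2) ≤ n3 (K + i) := by
    intro i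
    induction i with
    | zero => show m + (j - 2) ≤ n3 K; omega
    | succ i ih =>
      rw [hs]
      refine (lo_add hq hpq _ _).trans ((lo_mono p q ih).trans ?_)
      have f1 := a3.low (K + i)
      unfold lo
      have f2 : (p * n3 (K + i) + (q - 1)) / q ≤ (q * n3 (K + i + 1) + (q - 1)) / q :=
        Nat.div_le_div_right (by omega)
      have f3 : (q * n3 (K + i + 1) + (q - 1)) / q = n3 (K + i + 1) := by
        rw [Nat.mul_add_div hq, Nat.div_eq_of_lt (by omega), add_zero]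
      show _ ≤ n3 (K + i + 1)
      omega
  have hmem : ∀ i s, s ≤ j - 2 → (lo p q)^[i] m + s ∈ A p q x (K + i) := by
    intro i s hs'
    have := hlow i
    have := hupp i
    exact mem_between hq hpq (u := n1 (K + i)) (w := n3 (K + i)) ⟨n1, a1, rfl⟩ ⟨n3, a3, rfl⟩
      (by omega) (by omega)
  have hstep : ∀ i, q * (lo p q)^[i + 1] m - p * (lo p q)^[i] m < (j - 2) * (p - q) →
      (A p q x (K + i)).ncard + 1 ≤ (A p q x (K + (i + 1))).ncard := by
    intro i hi
    obtain ⟨L, hL⟩ : ∃ L, L = (lo p q)^[i] m := ⟨_, rfl⟩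
    obtain ⟨L', hL'⟩ : ∃ L', L' = (lo p q)^[i + 1] m := ⟨_, rfl⟩
    have hd := digit_lt p q hq L
    have hLL : L' = lo p q L := by rw [hL', hs, hL]
    rw [← hLL] at hd
    rw [← hL, ← hL'] at hi
    have hj3 : 3 ≤ j := by
      by_contra hlt
      have : j - 2 = 0 := by omega
      rw [this, zero_mul] at hi
      omega
    have hlt : q * (L' + (j - 2)) < p * (L + (j - 2)) := by
      obtain ⟨d, hd'⟩ : ∃ d, p = q + d := ⟨p - q, by omega⟩
      have hpd : p - q = d := by omega
      rw [hpd] at hi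
      have e1 : q * (L' + (j - 2)) = q * L' + q * (j - 2) := by ring
      have e2 : p * (L + (j - 2)) = p * L + q * (j - 2) + (j - 2) * d := by
        rw [mul_add, hd']; ring
      rw [e1, e2]
      omega
    -- pigeonhole
    obtain ⟨s, hs1, t, ht1, hst, heq⟩ := Finset.exists_ne_map_eq_of_card_lt_of_maps_to
      (s := range (j - 1)) (t := Finset.Icc L (L + (j - 3))) (f := fun s => q * (L' + s) / p)
      (by rw [card_range, Nat.card_Icc]; omega) (by
        intro s hs1
        rw [Finset.mem_coe, Finset.mem_range] at hs1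
        rw [Finset.mem_coe, Finset.mem_Icc]
        constructor
        · show L ≤ q * (L' + s) / p
          rw [Nat.le_div_iff_mul_le hp]
          calc L * p = p * L := mul_comm _ _
            _ ≤ q * L' := hd.2
            _ ≤ q * (L' + s) := Nat.mul_le_mul_left _ (by omega)
        · show q * (L' + s) / p ≤ L + (j - 3)
          have h5 : q * (L' + s) < p * (L + (j - 2)) :=
            lt_of_le_of_lt (Nat.mul_le_mul_left _ (by omega)) hlt
          have h6 : q * (L' + s) / p < L + (j - 2) := Nat.div_lt_of_lt_mul h5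
          omega)
    rw [A_succ (x := x) hq hpq (K + i)]
    have hs1' : s ≤ j - 2 := by rw [Finset.mem_range] at hs1; omega
    have ht1' : t ≤ j - 2 := by rw [Finset.mem_range] at ht1; omega
    have m1 := hmem (i + 1) s hs1'
    have m2 := hmem (i + 1) t ht1'
    rw [← hL'] at m1 m2
    exact ncard_image_lt (A_finite hq hpq _) (fun m => q * m / p) m1 m2 (by omega) heq
  have hcount : ∀ J, ((range J).filter fun i =>
      q * (lo p q)^[i + 1] m - p * (lo p q)^[i] m < (j - 2) * (p - q)).card ≤ (A p q x (K + J)).ncard := by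
    intro J
    induction J with
    | zero =>
      rw [range_zero, filter_empty, card_empty]
      exact Nat.zero_le _
    | succ J ih =>
      rw [range_add_one, filter_insert]
      split_ifs with h
      · refine (card_insert_le _ _).trans ?_
        have := hstep J h
        omega
      · exact ih.trans (A_card_mono hq hpq (by omega : K + J ≤ K + (J + 1)))
  exact (hcount J).trans (A_card_le hq hpq _)

theorem upper_j (hq : 1 ≤ q) (hpq : q < p) (hcop : Nat.Coprime p q) (j : ℕ) (hj : 2 ≤ j)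
    (hd : (j - 2) * (p - q) < q) (K J : ℕ) (hJ : 1 ≤ J) (hJ' : top p q K < q ^ J) :
    ({x : ℝ | (j : ℕ∞) ≤ (A p q x K).encard}.ncard : ℝ) ≤
      J ^ (p + 1) * ((q : ℝ) - ((j - 2) * (p - q) : ℕ)) ^ J * Real.exp (((j - 2) * (p - q) : ℕ) : ℝ) := by
  classical
  refine le_trans ?_ (words_count q ((j - 2) * (p - q)) J (p + 1) hd hJ)
  have hsub3 : {x : ℝ | (j : ℕ∞) ≤ (A p q x K).encard} ⊆ {x : ℝ | 2 ≤ (A p q x K).encard} := by
    intro x hx
    have h3 : (j : ℕ∞) ≤ (A p q x K).encard := hx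
    exact le_trans (by exact_mod_cast hj) h3
  have hs : ∀ (y i : ℕ), (lo p q)^[i + 1] y = lo p q ((lo p q)^[i] y) := fun y i =>
    Function.iterate_succ_apply' _ _ _
  -- the word of a label
  let word : ℕ → (Fin J → Fin q) := fun m i =>
    ⟨q * (lo p q)^[(i : ℕ) + 1] m - p * (lo p q)^[(i : ℕ)] m, by
      rw [hs]; exact (digit_lt p q hq _).1⟩
  have hmaps : ∀ x ∈ {x : ℝ | (j : ℕ∞) ≤ (A p q x K).encard}, word (sInf (A p q x K) + 1) ∈
      ((univ.filter fun f : Fin J → Fin q =>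
        (univ.filter fun i => (f i : ℕ) < (j - 2) * (p - q)).card ≤ p + 1 :
        Finset (Fin J → Fin q)) : Set (Fin J → Fin q)) := by
    intro x hx
    obtain ⟨h1, h3⟩ := labels_j hq hpq K j hj x hx
    rw [Finset.mem_coe, Finset.mem_filter]
    refine ⟨Finset.mem_univ _, ?_⟩
    have h4 := few_small hq hpq K (sInf (A p q x K) + 1) j hj x (by omega) (by simpa using h1)
      (by rwa [show sInf (A p q x K) + 1 + (j - 2) = sInf (A p q x K) + (j - 1) by omega]) J
    refine le_trans (le_of_eq ?_) h4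
    rw [← Finset.card_map (Fin.valEmbedding (n := J))]
    congr 1
    ext i
    simp only [Finset.mem_map, Finset.mem_filter, Finset.mem_univ, true_and, Finset.mem_range,
      Fin.valEmbedding_apply, word]
    constructor
    · rintro ⟨k, hk, rfl⟩
      exact ⟨k.2, hk⟩
    · rintro ⟨hi, hk⟩
      exact ⟨⟨i, hi⟩, hk, rfl⟩
  have hinj : Set.InjOn (fun x : ℝ => word (sInf (A p q x K) + 1)) {x : ℝ | (j : ℕ∞) ≤ (A p q x K).encard} := by
    intro x hx y hy hxy
    refine inj_two hq hpq K (hsub3 hx) (hsub3 hy) ?_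
    have hx' := le_top p q hq hpq K _ x (labels_j hq hpq K 2 le_rfl x (hsub3 hx)).2
    have hy' := le_top p q hq hpq K _ y (labels_j hq hpq K 2 le_rfl y (hsub3 hy)).2
    have h5 := digits_inj p q hq hcop J _ _ (lt_of_le_of_lt hx' hJ') (lt_of_le_of_lt hy' hJ') (fun i hi => by
      have := congrFun hxy ⟨i, hi⟩
      simpa [word] using congrArg Fin.val this)
    simp only
    omega
  have h6 := Set.ncard_le_ncard_of_injOn _ hmaps hinj (Finset.finite_toSet _)
  rw [Set.ncard_coe_finset] at h6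
  exact_mod_cast h6

theorem final_j (p q : ℕ) (hq2 : 2 ≤ q) (hpq : q < p) (hcop : Nat.Coprime p q) :
    ∃ (B : ℕ) (c C : ℝ), 0 < c ∧ ∀ K : ℕ, 1 ≤ K →
      {x : ℝ | 2 ≤ (pre p q x K).encard}.Finite ∧
      c * ((p : ℝ) / q) ^ K ≤ {x : ℝ | 2 ≤ (pre p q x K).encard}.ncard ∧
      ∀ j : ℕ, 2 ≤ j → (j - 2) * (p - q) < q →
        ({x : ℝ | (j : ℕ∞) ≤ (pre p q x K).encard}.ncard : ℝ) ≤
          C * (K : ℝ) ^ B * (((p : ℝ) / q) ^ K) ^ (Real.log (q - (j - 2) * (p - q)) / Real.log q) := by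
  have hq : 1 ≤ q := by omega
  have hpq' : (q : ℝ) < p := by exact_mod_cast hpq
  have hqr : (2 : ℝ) ≤ q := by exact_mod_cast hq2
  have hpr : (0 : ℝ) < p := by linarith
  have hlogq : 0 < Real.log q := Real.log_pos (by linarith)
  refine ⟨p + 1, 1 / (2 * (p + 1)), ((2 * p + 1 : ℕ) : ℝ) ^ (p + 1) * ((q : ℝ) * p) * Real.exp (q : ℝ),
    by positivity, fun K hK => ?_⟩
  have he : ∀ j : ℕ∞, {x : ℝ | j ≤ (pre p q x K).encard} = {x : ℝ | j ≤ (A p q x K).encard} := by
    intro j
    ext x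
    show j ≤ (pre p q x K).encard ↔ j ≤ (A p q x K).encard
    rw [pre_encard p q hq hpq]
  obtain ⟨g1, g2⟩ := top_growth p q hq hpq K
  have hratio : 1 < (p : ℝ) / q := by
    rw [one_lt_div (by linarith)]; exact hpq'
  have hpow : 1 < ((p : ℝ) / q) ^ K := one_lt_pow₀ hratio (by omega)
  have htop : 1 ≤ top p q K := by
    have : (0 : ℝ) < top p q K := by linarith
    exact_mod_cast this
  have htopr : (1 : ℝ) ≤ top p q K := by exact_mod_cast htop
  rw [he]
  refine ⟨fin_two hq hpq K, ?_, fun j hj hd => ?_⟩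
  · have h1 : (top p q K : ℝ) ≤ (p + 1) * {x : ℝ | 2 ≤ (A p q x K).encard}.ncard := by
      exact_mod_cast lower_two hq hpq K
    rw [one_div_mul_eq_div, div_le_iff₀ (by positivity)]
    nlinarith
  · rw [he]
    have hcast : (q : ℝ) - ((j - 2) * (p - q) : ℕ) = q - (j - 2) * (p - q) := by
      push_cast [Nat.cast_sub hj, Nat.cast_sub hpq.le]
      ring
    have hone : (1 : ℝ) ≤ q - (j - 2) * (p - q) := by
      rw [← hcast]
      have : (((j - 2) * (p - q) : ℕ) : ℝ) + 1 ≤ q := by exact_mod_cast hd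
      linarith
    have hleq : (q : ℝ) - (j - 2) * (p - q) ≤ q := by
      rw [← hcast]
      have : (0 : ℝ) ≤ (((j - 2) * (p - q) : ℕ) : ℝ) := Nat.cast_nonneg _
      linarith
    obtain ⟨θ, hθ⟩ : ∃ θ : ℝ, θ = Real.log (q - (j - 2) * (p - q)) / Real.log q := ⟨_, rfl⟩
    rw [← hθ]
    have hθ0 : 0 ≤ θ := by
      rw [hθ]
      exact div_nonneg (Real.log_nonneg hone) hlogq.le
    have hθ1 : θ ≤ 1 := by
      rw [hθ, div_le_one hlogq]
      exact Real.log_le_log (by linarith) hleq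
    have hqθ : (q : ℝ) ^ θ = q - (j - 2) * (p - q) := by
      rw [Real.rpow_def_of_pos (by linarith), hθ, mul_div_cancel₀ _ hlogq.ne', Real.exp_log (by linarith)]
    -- the number of digits
    obtain ⟨J, hJdef⟩ : ∃ J, J = Nat.log q (top p q K) + 1 := ⟨_, rfl⟩
    have hJ1 : 1 ≤ J := by omega
    have hJ2 : top p q K < q ^ J := by
      rw [hJdef]; exact Nat.lt_pow_succ_log_self (by omega) _
    have hJ3 : q ^ (J - 1) ≤ top p q K := by
      rw [hJdef, Nat.add_sub_cancel]
      exact Nat.pow_log_le_self q (by omega)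
    have hJ3r : (q : ℝ) ^ (J - 1) ≤ p * ((p : ℝ) / q) ^ K := by
      have : ((q ^ (J - 1) : ℕ) : ℝ) ≤ top p q K := by exact_mod_cast hJ3
      push_cast at this
      linarith
    have h2p : (p : ℝ) ≤ 2 ^ p := by exact_mod_cast (Nat.lt_two_pow_self (n := p)).le
    have hJK : (J : ℝ) ≤ ((2 * p + 1 : ℕ) : ℝ) * K := by
      have h1 : (p : ℝ) / q ≤ 2 ^ p := by
        rw [div_le_iff₀ (by linarith)]
        have : (2 : ℝ) ^ p * 1 ≤ 2 ^ p * q := mul_le_mul_of_nonneg_left (by linarith) (by positivity)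
        linarith
      have h2 : (2 : ℝ) ^ (J - 1) ≤ 2 ^ (p + p * K) := by
        calc (2 : ℝ) ^ (J - 1) ≤ (q : ℝ) ^ (J - 1) := pow_le_pow_left₀ (by norm_num) hqr _
          _ ≤ p * ((p : ℝ) / q) ^ K := hJ3r
          _ ≤ 2 ^ p * (2 ^ p) ^ K := by
            refine mul_le_mul h2p (pow_le_pow_left₀ (by positivity) h1 _) (by positivity) (by positivity)
          _ = 2 ^ (p + p * K) := by rw [← pow_mul, ← pow_add]
      have h3 : J - 1 ≤ p + p * K := by
        exact_mod_cast (pow_le_pow_iff_right₀ (by norm_num : (1 : ℝ) < 2)).mp h2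
      have h4 : J ≤ (2 * p + 1) * K := by
        have h5 : p ≤ p * K := Nat.le_mul_of_pos_right _ (by omega)
        have h6 : (2 * p + 1) * K = p * K + p * K + K := by ring
        omega
      exact_mod_cast h4
    have hup := upper_j hq hpq hcop j hj hd K J hJ1 hJ2
    rw [hcast, ← hqθ] at hup
    have hpowJ : ((q : ℝ) ^ θ) ^ J ≤ ((q : ℝ) * p) * (((p : ℝ) / q) ^ K) ^ θ := by
      have hqp1 : (1 : ℝ) ≤ (q : ℝ) * p := by nlinarith
      have e1 : ((q : ℝ) ^ θ) ^ J ≤ ((q : ℝ) * p) ^ θ * (((p : ℝ) / q) ^ K) ^ θ := by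
        rw [← Real.rpow_natCast, ← Real.rpow_mul (by linarith), mul_comm θ, Real.rpow_mul (by linarith),
          Real.rpow_natCast, ← Real.mul_rpow (by positivity) (by positivity)]
        refine Real.rpow_le_rpow (by positivity) ?_ hθ0
        calc (q : ℝ) ^ J = q * q ^ (J - 1) := by
              rw [← pow_succ']; congr 1; omega
          _ ≤ q * (p * ((p : ℝ) / q) ^ K) := mul_le_mul_of_nonneg_left hJ3r (by linarith)
          _ = q * p * ((p : ℝ) / q) ^ K := by ring
      refine e1.trans (mul_le_mul_of_nonneg_right ?_ (by positivity))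
      calc ((q : ℝ) * p) ^ θ ≤ ((q : ℝ) * p) ^ (1 : ℝ) := Real.rpow_le_rpow_of_exponent_le hqp1 hθ1
        _ = (q : ℝ) * p := Real.rpow_one _
    refine hup.trans ?_
    have hJB : (J : ℝ) ^ (p + 1) ≤ ((2 * p + 1 : ℕ) : ℝ) ^ (p + 1) * (K : ℝ) ^ (p + 1) := by
      rw [← mul_pow]
      exact pow_le_pow_left₀ (by positivity) hJK _
    have hexp : Real.exp (((j - 2) * (p - q) : ℕ) : ℝ) ≤ Real.exp (q : ℝ) := by
      apply Real.exp_le_exp.mpr
      exact_mod_cast hd.le
    calc (J : ℝ) ^ (p + 1) * ((q : ℝ) ^ θ) ^ J * Real.exp (((j - 2) * (p - q) : ℕ) : ℝ)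
        ≤ (((2 * p + 1 : ℕ) : ℝ) ^ (p + 1) * (K : ℝ) ^ (p + 1)) * (((q : ℝ) * p) * (((p : ℝ) / q) ^ K) ^ θ) *
          Real.exp (q : ℝ) := by
          refine mul_le_mul (mul_le_mul hJB hpowJ (by positivity) (by positivity)) hexp (Real.exp_pos _).le
            (by positivity)
      _ = _ := by ring

end Pool.Agent.PQ
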