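import Pool.Agent.PQ.Defs

open Filter Topology Finset

/-!
# Uniqueness of the value, few branchings below a middle label, digits
-/

set_option linter.unusedVariables false

namespace Pool.Agent.PQ

variable {p q : ℕ} {x y : ℝ}

theorem IsPath.lt_forw {n n' : ℕ → ℕ} (h : IsPath p q x n) (h' : IsPath p q y n') (K : ℕ)
    (hlt : n K < n' K) (i : ℕ) : n (K + i) < n' (K + i) := by
  induction i with
  | zero => exact hlt
  | succ i ih =>
    have f1 := h.up (K + i)
    have f2 := h'.low (K + i)
    have f3 : p * n (K + i) + p ≤ p * n' (K + i) := by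
      calc p * n (K + i) + p = p * (n (K + i) + 1) := by ring
        _ ≤ p * n' (K + i) := Nat.mul_le_mul_left _ ih
    have f4 : q * n (K + i + 1) < q * n' (K + i + 1) := by omega
    exact lt_of_mul_lt_mul_left f4 (Nat.zero_le _)

theorem IsPath.lim_le_of_lt {n n' : ℕ → ℕ} (h : IsPath p q x n) (h' : IsPath p q y n') (K : ℕ)
    (hlt : n K < n' K) : x ≤ y := by
  refine le_of_tendsto_of_tendsto h.lim h'.lim ?_
  filter_upwards [eventually_ge_atTop K] with j hj
  have h1 := h.lt_forw h' K hlt (j - K)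
  rw [show K + (j - K) = j by omega] at h1
  have h2 : (n j : ℝ) ≤ n' j := by exact_mod_cast h1.le
  show ((q : ℝ) / p) ^ j * (n j : ℝ) ≤ ((q : ℝ) / p) ^ j * (n' j : ℝ)
  gcongr

theorem pair_unique (p q : ℕ) (hq : 1 ≤ q) (hpq : q < p) (K m : ℕ) (x y : ℝ) (h1 : m ∈ A p q x K)
    (h2 : m + 1 ∈ A p q x K) (h3 : m ∈ A p q y K) (h4 : m + 1 ∈ A p q y K) : x = y := by
  obtain ⟨n1, a1, e1⟩ := h1
  obtain ⟨n2, a2, e2⟩ := h2
  obtain ⟨n3, a3, e3⟩ := h3
  obtain ⟨n4, a4, e4⟩ := h4
  exact le_antisymm (a1.lim_le_of_lt a4 K (by omega)) (a3.lim_le_of_lt a2 K (by omega))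

theorem le_top (p q : ℕ) (hq : 1 ≤ q) (hpq : q < p) (K m : ℕ) (x : ℝ) (h : m ∈ A p q x K) :
    m ≤ top p q K := by
  obtain ⟨n, a, rfl⟩ := h
  induction K with
  | zero => rw [a.zero]; exact Nat.zero_le _
  | succ k ih =>
    have h1 := a.up k
    show n (k + 1) ≤ (p * top p q k + (p - 1)) / q
    rw [Nat.le_div_iff_mul_le hq]
    have h2 : p * n k ≤ p * top p q k := Nat.mul_le_mul_left _ ih
    rw [mul_comm]
    omega

/-- between two paths of value `x` every path has the value `x` -/
theorem mid_path (hq : 0 < q) (hpq : q < p) {n1 n2 n3 : ℕ → ℕ} (h1 : IsPath p q x n1)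
    (h2 : IsPath p q x n2) (h3 : IsPath p q x n3) (K : ℕ) (h12 : n1 K < n2 K) (h23 : n2 K < n3 K)
    (f : ℕ → ℕ) (hf0 : f 0 = n2 K) (hlow : ∀ i, p * f i ≤ q * f (i + 1))
    (hup : ∀ i, q * f (i + 1) < p * f i + p) (i : ℕ) : f i ∈ A p q x (K + i) := by
  have hf1 : ∀ i, n1 (K + i) < f i := by
    intro i
    induction i with
    | zero => rw [hf0]; exact h12
    | succ i ih =>
      have g1 := h1.up (K + i)
      have g2 := hlow i
      have g3 : p * n1 (K + i) + p ≤ p * f i := by
        calc p * n1 (K + i) + p = p * (n1 (K + i) + 1) := by ring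
          _ ≤ p * f i := Nat.mul_le_mul_left _ ih
      have g4 : q * n1 (K + i + 1) < q * f (i + 1) := by omega
      exact lt_of_mul_lt_mul_left g4 (Nat.zero_le _)
  have hf3 : ∀ i, f i < n3 (K + i) := by
    intro i
    induction i with
    | zero => rw [hf0]; exact h23
    | succ i ih =>
      have g1 := hup i
      have g2 := h3.low (K + i)
      have g3 : p * f i + p ≤ p * n3 (K + i) := by
        calc p * f i + p = p * (f i + 1) := by ring
          _ ≤ p * n3 (K + i) := Nat.mul_le_mul_left _ ih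
      have g4 : q * f (i + 1) < q * n3 (K + i + 1) := by omega
      exact lt_of_mul_lt_mul_left g4 (Nat.zero_le _)
  refine ⟨fun j => if j ≤ K then n2 j else f (j - K), ⟨?_, ?_, ?_, ?_⟩, ?_⟩
  · simp [h2.zero]
  · intro j
    rcases lt_trichotomy j K with h | h | h
    · simp only [h.le, if_true, Nat.succ_le_of_lt h]
      exact h2.low j
    · subst h
      have e := hlow 0
      rw [hf0] at e
      simpa using e
    · simp only [not_le.mpr h, if_false, show ¬ (j + 1 ≤ K) by omega, show j + 1 - K = (j - K) + 1 by omega]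
      exact hlow _
  · intro j
    rcases lt_trichotomy j K with h | h | h
    · simp only [h.le, if_true, Nat.succ_le_of_lt h]
      exact h2.up j
    · subst h
      have e := hup 0
      rw [hf0] at e
      simpa using e
    · simp only [not_le.mpr h, if_false, show ¬ (j + 1 ≤ K) by omega, show j + 1 - K = (j - K) + 1 by omega]
      exact hup _
  · refine tendsto_of_tendsto_of_tendsto_of_le_of_le' h1.lim h3.lim ?_ ?_
    · filter_upwards [eventually_gt_atTop K] with j hj
      have e := hf1 (j - K)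
      rw [show K + (j - K) = j by omega] at e
      simp only [not_le.mpr hj, if_false]
      have e' : (n1 j : ℝ) ≤ f (j - K) := by exact_mod_cast e.le
      gcongr
    · filter_upwards [eventually_gt_atTop K] with j hj
      have e := hf3 (j - K)
      rw [show K + (j - K) = j by omega] at e
      simp only [not_le.mpr hj, if_false]
      have e' : (f (j - K) : ℝ) ≤ n3 j := by exact_mod_cast e.le
      gcongr
  · rcases Nat.eq_zero_or_pos i with h | h
    · subst h; simp [hf0]
    · simp [show ¬ (K + i ≤ K) by omega]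

theorem digit_lt (p q : ℕ) (hq : 1 ≤ q) (m : ℕ) : q * lo p q m - p * m < q ∧ p * m ≤ q * lo p q m := by
  unfold lo
  have e := Nat.mul_div_le (p * m + (q - 1)) q
  have e2 := Nat.lt_mul_div_succ (p * m + (q - 1)) hq
  have e3 : q * ((p * m + (q - 1)) / q + 1) = q * ((p * m + (q - 1)) / q) + q := by ring
  constructor <;> omega

theorem ncard_image_lt {s : Set ℕ} (hs : s.Finite) (f : ℕ → ℕ) {a b : ℕ} (ha : a ∈ s) (hb : b ∈ s)
    (hab : a ≠ b) (h : f a = f b) : (f '' s).ncard + 1 ≤ s.ncard := by
  have h1 := Set.ncard_image_le (f := f) hs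
  rcases Nat.lt_or_ge (f '' s).ncard s.ncard with h2 | h2
  · exact h2
  · exact absurd (Set.injOn_of_ncard_image_eq (le_antisymm h1 h2) hs ha hb h) hab

theorem few_branch (p q : ℕ) (hq : 1 ≤ q) (hpq : q < p) (K m : ℕ) (x : ℝ) (hm : 1 ≤ m) (h1 : m - 1 ∈ A p q x K)
    (h2 : m ∈ A p q x K) (h3 : m + 1 ∈ A p q x K) (J : ℕ) :
    ((range J).filter fun i => q * (lo p q)^[i + 1] m - p * (lo p q)^[i] m < p - q).card ≤ p + 1 := by
  obtain ⟨n1, a1, e1⟩ := h1
  obtain ⟨n2, a2, e2⟩ := h2
  obtain ⟨n3, a3, e3⟩ := h3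
  have h12 : n1 K < n2 K := by omega
  have h23 : n2 K < n3 K := by omega
  have hs : ∀ (y i : ℕ), (lo p q)^[i + 1] y = lo p q ((lo p q)^[i] y) := fun y i =>
    Function.iterate_succ_apply' _ _ _
  have hA : ∀ i, (lo p q)^[i] m ∈ A p q x (K + i) := by
    refine mid_path hq hpq a1 a2 a3 K h12 h23 (fun i => (lo p q)^[i] m) (by simp [e2]) ?_ ?_
    · intro i
      simp only [hs]
      exact (digit_lt p q hq _).2
    · intro i
      simp only [hs]
      have := digit_lt p q hq ((lo p q)^[i] m)
      omega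
  have hB : ∀ i, q * (lo p q)^[i + 1] m - p * (lo p q)^[i] m < p - q →
      (lo p q)^[i + 1] m + 1 ∈ A p q x (K + (i + 1)) := by
    intro i hi
    have hmem := mid_path hq hpq a1 a2 a3 K h12 h23
      (fun j => if j ≤ i then (lo p q)^[j] m else (lo p q)^[j - (i + 1)] ((lo p q)^[i + 1] m + 1))
      (by simp [e2]) ?_ ?_ (i + 1)
    · simpa using hmem
    · intro j
      rcases lt_trichotomy j i with h | h | h
      · simp only [h.le, if_true, Nat.succ_le_of_lt h, hs]
        exact (digit_lt p q hq _).2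
      · subst h
        simp only [le_refl, if_true, show ¬ (j + 1 ≤ j) by omega, if_false, Nat.sub_self,
          Function.iterate_zero, id]
        have := (digit_lt p q hq ((lo p q)^[j] m)).2
        rw [hs, mul_add]
        omega
      · simp only [not_le.mpr h, if_false, show ¬ (j + 1 ≤ i) by omega,
          show j + 1 - (i + 1) = (j - (i + 1)) + 1 by omega]
        rw [Function.iterate_succ_apply' (lo p q) (j - (i + 1))]
        exact (digit_lt p q hq _).2
    · intro j
      rcases lt_trichotomy j i with h | h | h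
      · simp only [h.le, if_true, Nat.succ_le_of_lt h, hs]
        have := digit_lt p q hq ((lo p q)^[j] m)
        omega
      · subst h
        simp only [le_refl, if_true, show ¬ (j + 1 ≤ j) by omega, if_false, Nat.sub_self,
          Function.iterate_zero, id]
        have h5 := (digit_lt p q hq ((lo p q)^[j] m)).2
        rw [hs] at hi ⊢
        rw [mul_add]
        omega
      · simp only [not_le.mpr h, if_false, show ¬ (j + 1 ≤ i) by omega,
          show j + 1 - (i + 1) = (j - (i + 1)) + 1 by omega]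
        rw [Function.iterate_succ_apply' (lo p q) (j - (i + 1))]
        have := digit_lt p q hq ((lo p q)^[j - (i + 1)] ((lo p q)^[i + 1] m + 1))
        omega
  have hp : 0 < p := by omega
  have hstep : ∀ i, q * (lo p q)^[i + 1] m - p * (lo p q)^[i] m < p - q →
      (A p q x (K + i)).ncard + 1 ≤ (A p q x (K + (i + 1))).ncard := by
    intro i hi
    have hsucc := A_succ (x := x) hq hpq (K + i)
    rw [hsucc]
    refine ncard_image_lt (A_finite hq hpq _) _ (hA (i + 1)) (hB i hi) (by omega) ?_
    -- both have the parent `lo^[i] m`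
    have h5 := (digit_lt p q hq ((lo p q)^[i] m))
    have e4 : q * (lo p q)^[i + 1] m / p = (lo p q)^[i] m := by
      apply Nat.div_eq_of_lt_le
      · rw [mul_comm, hs]; exact h5.2
      · rw [Nat.succ_mul, mul_comm ((lo p q)^[i] m) p, hs]; omega
    have e5 : q * ((lo p q)^[i + 1] m + 1) / p = (lo p q)^[i] m := by
      apply Nat.div_eq_of_lt_le
      · rw [mul_comm, hs, mul_add]; omega
      · rw [Nat.succ_mul, mul_comm ((lo p q)^[i] m) p]
        rw [hs] at hi ⊢
        rw [mul_add]
        omega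
    show q * (lo p q)^[i + 1] m / p = q * ((lo p q)^[i + 1] m + 1) / p
    rw [e4, e5]
  have hcount : ∀ J, ((range J).filter fun i =>
      q * (lo p q)^[i + 1] m - p * (lo p q)^[i] m < p - q).card ≤ (A p q x (K + J)).ncard := by
    intro J
    induction J with
    | zero =>
      rw [range_zero, filter_empty, card_empty]
      exact Nat.zero_le _
    | succ J ih =>
      rw [range_add_one, filter_insert]
      split_ifs with h
      · refine (card_insert_le _ _).trans ?_
        have := hstep J h
        omega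
      · exact ih.trans (A_card_mono hq hpq (by omega : K + J ≤ K + (J + 1)))
  exact (hcount J).trans (A_card_le hq hpq _)

theorem digits_inj (p q : ℕ) (hq : 1 ≤ q) (hcop : Nat.Coprime p q) (J m m' : ℕ) (hm : m < q ^ J) (hm' : m' < q ^ J)
    (h : ∀ i < J, q * (lo p q)^[i + 1] m - p * (lo p q)^[i] m = q * (lo p q)^[i + 1] m' - p * (lo p q)^[i] m') :
    m = m' := by
  have hs : ∀ (y i : ℕ), (lo p q)^[i + 1] y = lo p q ((lo p q)^[i] y) := fun y i =>
    Function.iterate_succ_apply' _ _ _
  have key : ∀ i ≤ J, (q : ℤ) ^ i * (((lo p q)^[i] m : ℕ) - ((lo p q)^[i] m' : ℕ)) = (p : ℤ) ^ i * ((m : ℤ) - m') := by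
    intro i
    induction i with
    | zero => intro _; simp
    | succ i ih =>
      intro hi
      have h1 := ih (by omega)
      have h2 := h i (by omega)
      rw [hs, hs] at h2
      have h3 := (digit_lt p q hq ((lo p q)^[i] m)).2
      have h4 := (digit_lt p q hq ((lo p q)^[i] m')).2
      have h5 : (q : ℤ) * (lo p q ((lo p q)^[i] m) : ℕ) - p * ((lo p q)^[i] m : ℕ) =
          q * (lo p q ((lo p q)^[i] m') : ℕ) - p * ((lo p q)^[i] m' : ℕ) := by
        zify [h3, h4] at h2
        exact h2
      rw [hs, hs, pow_succ, pow_succ]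
      linear_combination (q : ℤ) ^ i * h5 + (p : ℤ) * h1
  have h1 := key J le_rfl
  have h2 : ((q : ℤ) ^ J) ∣ (p : ℤ) ^ J * ((m : ℤ) - m') := ⟨_, h1.symm⟩
  have h3 : IsCoprime ((q : ℤ) ^ J) ((p : ℤ) ^ J) := by
    apply IsCoprime.pow
    exact (Nat.isCoprime_iff_coprime.mpr hcop.symm)
  have h4 := h3.dvd_of_dvd_mul_left h2
  have h5 : (m : ℤ) - m' = 0 := by
    apply Int.eq_zero_of_abs_lt_dvd h4
    have e1 : (m : ℤ) < (q : ℤ) ^ J := by exact_mod_cast hm
    have e2 : (m' : ℤ) < (q : ℤ) ^ J := by exact_mod_cast hm'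
    rw [abs_lt]
    constructor <;> omega
  omega

end Pool.Agent.PQ
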