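import Pool.Agent.PQ.FinJ

open Filter Topology Finset

/-!
# The numbers of reals with `j` expansions which differ within the first `K` digits, sharp form
-/

set_option linter.unusedVariables false

namespace Pool.Agent.PQ

variable {p q : ℕ}

/-- the lowest labels of the blocks of `j` consecutive labels of one real -/
def G (p q j K : ℕ) : Set ℕ := {m | ∃ x : ℝ, m ∈ A p q x K ∧ m + (j - 1) ∈ A p q x K}

/-- the residues of a set -/
def res (n : ℕ) (S : Set ℕ) : Set ℕ := (fun m => m % n) '' S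

theorem res_finite {n : ℕ} (hn : 0 < n) (S : Set ℕ) : (res n S).Finite := by
  refine (Set.finite_Iio n).subset ?_
  rintro _ ⟨m, _, rfl⟩
  exact Nat.mod_lt _ hn

theorem res_mono {n : ℕ} (hn : 0 < n) {S T : Set ℕ} (h : S ⊆ T) : (res n S).ncard ≤ (res n T).ncard :=
  Set.ncard_le_ncard (Set.image_mono h) (res_finite hn T)

theorem res_union (n : ℕ) (S T : Set ℕ) : (res n (S ∪ T)).ncard ≤ (res n S).ncard + (res n T).ncard := by
  unfold res
  rw [Set.image_union]
  exact Set.ncard_union_le _ _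

theorem res_shift {n : ℕ} (hn : 0 < n) (S : Set ℕ) :
    (res n ((fun m => m + 1) '' S)).ncard ≤ (res n S).ncard := by
  have h : res n ((fun m => m + 1) '' S) ⊆ (fun v => (v + 1) % n) '' res n S := by
    rintro _ ⟨_, ⟨m, hm, rfl⟩, rfl⟩
    refine ⟨m % n, ⟨m, hm, rfl⟩, ?_⟩
    show (m % n + 1) % n = (m + 1) % n
    exact Nat.mod_add_mod m n 1
  exact (Set.ncard_le_ncard h ((res_finite hn S).image _)).trans (Set.ncard_image_le (res_finite hn S))

theorem res_one (S : Set ℕ) : (res 1 S).ncard ≤ 1 := by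
  have h : res 1 S ⊆ {0} := by
    rintro _ ⟨m, _, rfl⟩
    exact Nat.mod_one m
  exact (Set.ncard_le_ncard h (Set.finite_singleton _)).trans (by rw [Set.ncard_singleton])

/-- one digit -/
theorem res_step (hq : 1 ≤ q) (hcop : Nat.Coprime p q) (S S' : Set ℕ) (D : Finset ℕ) (J : ℕ)
    (h : ∀ m ∈ S, q * lo p q (m + 1) - p * (m + 1) ∈ D ∧ 1 ≤ lo p q (m + 1) ∧ lo p q (m + 1) - 1 ∈ S') :
    (res (q ^ (J + 1)) S).ncard ≤ D.card * (res (q ^ J) S').ncard := by
  classical
  have hqJ : 0 < q ^ J := pow_pos hq _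
  have hqJ1 : 0 < q ^ (J + 1) := pow_pos hq _
  have hex : ∀ v : ℕ, ∃ m : ℕ, v ∈ res (q ^ (J + 1)) S → m ∈ S ∧ m % q ^ (J + 1) = v := by
    intro v
    by_cases hv : v ∈ res (q ^ (J + 1)) S
    · obtain ⟨m, hm, e⟩ := hv
      exact ⟨m, fun _ => ⟨hm, e⟩⟩
    · exact ⟨0, fun h' => absurd h' hv⟩
  choose g hg using hex
  have h1 := Set.ncard_le_ncard_of_injOn (s := res (q ^ (J + 1)) S)
    (t := (↑D : Set ℕ) ×ˢ res (q ^ J) S')
    (fun v => (q * lo p q (g v + 1) - p * (g v + 1), (lo p q (g v + 1) - 1) % q ^ J)) ?_ ?_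
    ((Finset.finite_toSet D).prod (res_finite hqJ S'))
  · rwa [Set.ncard_prod, Set.ncard_coe_finset] at h1
  · intro v hv
    obtain ⟨a, b⟩ := hg v hv
    obtain ⟨c, d, e⟩ := h (g v) a
    exact ⟨c, ⟨_, e, rfl⟩⟩
  · intro v hv w hw hvw
    obtain ⟨a, b⟩ := hg v hv
    obtain ⟨a', b'⟩ := hg w hw
    obtain ⟨c, d, e⟩ := h (g v) a
    obtain ⟨c', d', e'⟩ := h (g w) a'
    obtain ⟨e1, e2⟩ := Prod.ext_iff.mp hvw
    change q * lo p q (g v + 1) - p * (g v + 1) = q * lo p q (g w + 1) - p * (g w + 1) at e1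
    change (lo p q (g v + 1) - 1) % q ^ J = (lo p q (g w + 1) - 1) % q ^ J at e2
    have f1 := (digit_lt p q hq (g v + 1)).2
    have f2 := (digit_lt p q hq (g w + 1)).2
    have k1 : lo p q (g v + 1) ≡ lo p q (g w + 1) [MOD q ^ J] := by
      have k0 : lo p q (g v + 1) - 1 ≡ lo p q (g w + 1) - 1 [MOD q ^ J] := e2
      have k2 := k0.add_right 1
      rwa [Nat.sub_add_cancel d, Nat.sub_add_cancel d'] at k2
    have k2 : q * lo p q (g v + 1) ≡ q * lo p q (g w + 1) [MOD q ^ (J + 1)] := by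
      rw [pow_succ']
      exact k1.mul_left' q
    have k3 : p * (g v + 1) ≡ p * (g w + 1) [MOD q ^ (J + 1)] := by
      have e3 : q * lo p q (g v + 1) = p * (g v + 1) + (q * lo p q (g v + 1) - p * (g v + 1)) := by omega
      have e4 : q * lo p q (g w + 1) = p * (g w + 1) + (q * lo p q (g v + 1) - p * (g v + 1)) := by
        rw [e1]; omega
      rw [e3, e4] at k2
      exact Nat.ModEq.add_right_cancel' _ k2
    have k4 : g v + 1 ≡ g w + 1 [MOD q ^ (J + 1)] :=
      Nat.ModEq.cancel_left_of_coprime (Nat.Coprime.pow_left _ hcop.symm) k3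
    have k5 : g v ≡ g w [MOD q ^ (J + 1)] := Nat.ModEq.add_right_cancel' _ k4
    rw [← b, ← b']
    exact k5

/-- blocks persist -/
theorem block_persist (hq : 1 ≤ q) (hpq : q < p) {j K m : ℕ} (hj : 2 ≤ j) {x : ℝ} (h1 : m ∈ A p q x K)
    (h2 : m + (j - 1) ∈ A p q x K) : 1 ≤ lo p q (m + 1) ∧ lo p q (m + 1) - 1 ∈ A p q x (K + 1) ∧
      lo p q (m + 1) - 1 + (j - 1) ∈ A p q x (K + 1) := by
  obtain ⟨n1, a1, e1⟩ := h1
  obtain ⟨n3, a3, e3⟩ := h2
  have hlow : n1 (K + 1) < lo p q (m + 1) := by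
    have f1 := a1.up K
    have f2 := (digit_lt p q hq (m + 1)).2
    rw [e1] at f1
    have f3 : p * (m + 1) = p * m + p := by ring
    have f4 : q * n1 (K + 1) < q * lo p q (m + 1) := by omega
    exact lt_of_mul_lt_mul_left f4 (Nat.zero_le _)
  have hupp : lo p q (m + 1) + (j - 2) ≤ n3 (K + 1) := by
    refine (lo_add hq hpq _ _).trans ?_
    have f1 := a3.low K
    rw [e3] at f1
    rw [show m + 1 + (j - 2) = m + (j - 1) by omega]
    unfold lo
    have f2 : (p * (m + (j - 1)) + (q - 1)) / q ≤ (q * n3 (K + 1) + (q - 1)) / q :=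
      Nat.div_le_div_right (by omega)
    have f3 : (q * n3 (K + 1) + (q - 1)) / q = n3 (K + 1) := by
      rw [Nat.mul_add_div hq, Nat.div_eq_of_lt (by omega), add_zero]
    omega
  have m1 : n1 (K + 1) ∈ A p q x (K + 1) := ⟨n1, a1, rfl⟩
  have m3 : n3 (K + 1) ∈ A p q x (K + 1) := ⟨n3, a3, rfl⟩
  exact ⟨by omega, mem_between hq hpq m1 m3 (by omega) (by omega),
    mem_between hq hpq m1 m3 (by omega) (by omega)⟩

/-- a small digit gives a new label -/
theorem block_grow (hq : 1 ≤ q) (hpq : q < p) {j K m : ℕ} (hj : 2 ≤ j) {x : ℝ} (h1 : m ∈ A p q x K)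
    (h2 : m + (j - 1) ∈ A p q x K) (hr : q * lo p q (m + 1) - p * (m + 1) < (j - 2) * (p - q)) :
    (A p q x K).ncard + 1 ≤ (A p q x (K + 1)).ncard := by
  have hp : 0 < p := by omega
  obtain ⟨g1, g2, g3⟩ := block_persist hq hpq hj h1 h2
  obtain ⟨L, hL⟩ : ∃ L, L = m + 1 := ⟨_, rfl⟩
  obtain ⟨L', hL'⟩ : ∃ L', L' = lo p q (m + 1) := ⟨_, rfl⟩
  have hd := digit_lt p q hq (m + 1)
  rw [← hL'] at hd hr g1 g2 g3
  rw [← hL] at hd hr
  have hj3 : 3 ≤ j := by
    by_contra hlt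
    have : j - 2 = 0 := by omega
    rw [this, zero_mul] at hr
    omega
  have hlt : q * (L' + (j - 2)) < p * (L + (j - 2)) := by
    obtain ⟨d, hd'⟩ : ∃ d, p = q + d := ⟨p - q, by omega⟩
    have hpd : p - q = d := by omega
    rw [hpd] at hr
    have e1 : q * (L' + (j - 2)) = q * L' + q * (j - 2) := by ring
    have e2 : p * (L + (j - 2)) = p * L + q * (j - 2) + (j - 2) * d := by
      rw [mul_add, hd']; ring
    rw [e1, e2]
    omega
  obtain ⟨s, hs1, t, ht1, hst, heq⟩ := Finset.exists_ne_map_eq_of_card_lt_of_maps_to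
    (s := range (j - 1)) (t := Finset.Icc L (L + (j - 3))) (f := fun s => q * (L' + s) / p)
    (by rw [card_range, Nat.card_Icc]; omega) (by
      intro s hs1
      rw [Finset.mem_coe, Finset.mem_range] at hs1
      rw [Finset.mem_coe, Finset.mem_Icc]
      constructor
      · show L ≤ q * (L' + s) / p
        rw [Nat.le_div_iff_mul_le hp]
        calc L * p = p * L := mul_comm _ _
          _ ≤ q * L' := hd.2
          _ ≤ q * (L' + s) := Nat.mul_le_mul_left _ (by omega)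
      · show q * (L' + s) / p ≤ L + (j - 3)
        have h5 : q * (L' + s) < p * (L + (j - 2)) :=
          lt_of_le_of_lt (Nat.mul_le_mul_left _ (by omega)) hlt
        have h6 : q * (L' + s) / p < L + (j - 2) := Nat.div_lt_of_lt_mul h5
        omega)
  rw [A_succ (x := x) hq hpq K]
  have hs1' : s ≤ j - 2 := by rw [Finset.mem_range] at hs1; omega
  have ht1' : t ≤ j - 2 := by rw [Finset.mem_range] at ht1; omega
  have m1 : L' + s ∈ A p q x (K + 1) := mem_between hq hpq g2 g3 (by omega) (by omega)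
  have m2 : L' + t ∈ A p q x (K + 1) := mem_between hq hpq g2 g3 (by omega) (by omega)
  exact ncard_image_lt (A_finite hq hpq _) (fun m => q * m / p) m1 m2 (by omega) heq

/-- a block shorter than the whole set extends -/
theorem block_ext (hq : 1 ≤ q) (hpq : q < p) {j K m : ℕ} (hj : 2 ≤ j) {x : ℝ} (h1 : m ∈ A p q x K)
    (h2 : m + (j - 1) ∈ A p q x K) (hc : j + 1 ≤ (A p q x K).ncard) :
    m ∈ G p q (j + 1) K ∪ (fun m => m + 1) '' G p q (j + 1) K := by
  by_cases h3 : m + j ∈ A p q x K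
  · left
    exact ⟨x, h1, by simpa using h3⟩
  · right
    have hne : ∃ w ∈ A p q x K, w < m := by
      by_contra hcon
      push Not at hcon
      have hsub : A p q x K ⊆ Set.Icc m (m + (j - 1)) := by
        intro w hw
        refine ⟨hcon w hw, ?_⟩
        by_contra hlt
        push Not at hlt
        exact h3 (mem_between hq hpq h2 hw (by omega) (by omega))
      have h4 := Set.ncard_le_ncard hsub (Set.finite_Icc _ _)
      rw [← Finset.coe_Icc, Set.ncard_coe_finset, Nat.card_Icc] at h4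
      omega
    obtain ⟨w, hw, hwm⟩ := hne
    refine ⟨m - 1, ⟨x, mem_between hq hpq hw h1 (by omega) (by omega), ?_⟩, ?_⟩
    · rw [show m - 1 + (j + 1 - 1) = m + (j - 1) by omega]
      exact h2
    · show m - 1 + 1 = m
      omega

/-- no long blocks -/
theorem G_empty (hq : 1 ≤ q) (hpq : q < p) {j : ℕ} (hj : 2 ≤ j) (hd : q ≤ (j - 2) * (p - q)) (K : ℕ) :
    G p q j K = ∅ := by
  rw [Set.eq_empty_iff_forall_notMem]
  rintro m ⟨x, h1, h2⟩
  have hall : ∀ i : ℕ, ∃ m, m ∈ A p q x (K + i) ∧ m + (j - 1) ∈ A p q x (K + i) ∧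
      i ≤ (A p q x (K + i)).ncard := by
    intro i
    induction i with
    | zero => exact ⟨m, h1, h2, Nat.zero_le _⟩
    | succ i ih =>
      obtain ⟨m, k1, k2, k3⟩ := ih
      obtain ⟨g1, g2, g3⟩ := block_persist hq hpq hj k1 k2
      have g4 := block_grow hq hpq hj k1 k2 (lt_of_lt_of_le (digit_lt p q hq _).1 hd)
      exact ⟨_, g2, g3, by have : K + i + 1 = K + (i + 1) := rfl; rw [← this]; omega⟩
  obtain ⟨m, _, _, h3⟩ := hall (p + 2)
  have h4 := A_card_le (x := x) hq hpq (K + (p + 2))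
  omega

theorem G_cover (hq : 1 ≤ q) (hpq : q < p) {j : ℕ} (hj : 2 ≤ j) (K : ℕ) :
    G p q j K ⊆
      {m ∈ G p q j K | (j - 2) * (p - q) ≤ q * lo p q (m + 1) - p * (m + 1)} ∪
      (G p q (j + 1) K ∪ (fun m => m + 1) '' G p q (j + 1) K) ∪
      {m | 1 ≤ lo p q (m + 1) ∧
        lo p q (m + 1) - 1 ∈ G p q (j + 1) (K + 1) ∪ (fun m => m + 1) '' G p q (j + 1) (K + 1)} := by
  intro m hm
  have hm' := hm
  obtain ⟨x, h1, h2⟩ := hm'
  obtain ⟨g1, g2, g3⟩ := block_persist hq hpq hj h1 h2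
  rcases Nat.lt_or_ge (q * lo p q (m + 1) - p * (m + 1)) ((j - 2) * (p - q)) with h | h
  · right
    refine ⟨g1, block_ext hq hpq hj g2 g3 ?_⟩
    have h3 := block_grow hq hpq hj h1 h2 h
    have h4 : j ≤ (A p q x K).ncard := by
      have hsub : ((Finset.Icc m (m + (j - 1)) : Finset ℕ) : Set ℕ) ⊆ A p q x K := by
        intro w hw
        rw [Finset.mem_coe, Finset.mem_Icc] at hw
        exact mem_between hq hpq h1 h2 hw.1 hw.2
      have h5 := Set.ncard_le_ncard hsub (A_finite hq hpq K)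
      rw [Set.ncard_coe_finset, Nat.card_Icc] at h5
      omega
    omega
  · left; left
    exact ⟨hm, h⟩

theorem rec_step (hq : 1 ≤ q) (hpq : q < p) (hcop : Nat.Coprime p q) {j : ℕ} (hj : 2 ≤ j) (K J : ℕ) :
    (res (q ^ (J + 1)) (G p q j K)).ncard ≤
      (q - (j - 2) * (p - q)) * (res (q ^ J) (G p q j (K + 1))).ncard +
      2 * (res (q ^ (J + 1)) (G p q (j + 1) K)).ncard +
      q * (2 * (res (q ^ J) (G p q (j + 1) (K + 1))).ncard) := by
  have hqJ : 0 < q ^ J := pow_pos hq _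
  have hqJ1 : 0 < q ^ (J + 1) := pow_pos hq _
  refine (res_mono hqJ1 (G_cover hq hpq hj K)).trans ?_
  refine (res_union _ _ _).trans ?_
  refine Nat.add_le_add ((res_union _ _ _).trans (Nat.add_le_add ?_ ?_)) ?_
  · refine (res_step hq hcop _ (G p q j (K + 1)) (Finset.Ico ((j - 2) * (p - q)) q) J ?_).trans ?_
    · rintro m ⟨hm, hr⟩
      obtain ⟨x, h1, h2⟩ := hm
      obtain ⟨g1, g2, g3⟩ := block_persist hq hpq hj h1 h2
      exact ⟨Finset.mem_Ico.mpr ⟨hr, (digit_lt p q hq _).1⟩, g1, ⟨x, g2, g3⟩⟩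
    · rw [Nat.card_Ico]
  · refine (res_union _ _ _).trans ?_
    have := res_shift hqJ1 (G p q (j + 1) K)
    omega
  · refine (res_step hq hcop _ (G p q (j + 1) (K + 1) ∪ (fun m => m + 1) '' G p q (j + 1) (K + 1))
      (Finset.range q) J ?_).trans ?_
    · rintro m ⟨hm, hr⟩
      exact ⟨Finset.mem_range.mpr (digit_lt p q hq _).1, hm, hr⟩
    · rw [Finset.card_range]
      refine Nat.mul_le_mul_left _ ((res_union _ _ _).trans ?_)
      have := res_shift hqJ (G p q (j + 1) (K + 1))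
      omega

theorem res_bound (hq : 1 ≤ q) (hpq : q < p) (hcop : Nat.Coprime p q) (t : ℕ) :
    ∀ j : ℕ, 2 ≤ j → q + 2 ≤ j + t → ∃ C : ℕ, ∀ K J : ℕ,
      (res (q ^ J) (G p q j K)).ncard ≤ C * (q - (j - 2) * (p - q)) ^ J := by
  have hzero : ∀ j : ℕ, 2 ≤ j → q ≤ (j - 2) * (p - q) → ∃ C : ℕ, ∀ K J : ℕ,
      (res (q ^ J) (G p q j K)).ncard ≤ C * (q - (j - 2) * (p - q)) ^ J := by
    intro j hj hd
    refine ⟨0, fun K J => ?_⟩
    rw [G_empty hq hpq hj hd K]
    unfold res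
    rw [Set.image_empty, Set.ncard_empty]
    exact Nat.zero_le _
  induction t with
  | zero =>
    intro j hj ht
    refine hzero j hj ?_
    calc q ≤ j - 2 := by omega
      _ = (j - 2) * 1 := (mul_one _).symm
      _ ≤ (j - 2) * (p - q) := Nat.mul_le_mul_left _ (by omega)
  | succ t ih =>
    intro j hj ht
    rcases Nat.lt_or_ge ((j - 2) * (p - q)) q with hd | hd
    · obtain ⟨C, hC⟩ := ih (j + 1) (by omega) (by omega)
      obtain ⟨d, hd'⟩ : ∃ d, d = q - (j - 2) * (p - q) := ⟨_, rfl⟩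
      obtain ⟨e, he⟩ : ∃ e, e = q - (j + 1 - 2) * (p - q) := ⟨_, rfl⟩
      rw [← he] at hC
      have hed : e + 1 ≤ d := by
        have h1 : (j + 1 - 2) * (p - q) = (j - 2) * (p - q) + (p - q) := by
          rw [show j + 1 - 2 = (j - 2) + 1 by omega, add_mul, one_mul]
        omega
      refine ⟨1 + 2 * C * (e + q), ?_⟩
      rw [← hd']
      have key : ∀ J K, (res (q ^ J) (G p q j K)).ncard + 2 * C * (e + q) * e ^ J ≤
          (1 + 2 * C * (e + q)) * d ^ J := by
        intro J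
        induction J with
        | zero =>
          intro K
          have := res_one (G p q j K)
          simp only [pow_zero, mul_one]
          omega
        | succ J ihJ =>
          intro K
          have h1 := rec_step hq hpq hcop hj K J
          rw [← hd'] at h1
          have h2 := hC K (J + 1)
          have h3 := hC (K + 1) J
          have h4 := ihJ (K + 1)
          calc (res (q ^ (J + 1)) (G p q j K)).ncard + 2 * C * (e + q) * e ^ (J + 1)
              ≤ (d * (res (q ^ J) (G p q j (K + 1))).ncard +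
                2 * (res (q ^ (J + 1)) (G p q (j + 1) K)).ncard +
                q * (2 * (res (q ^ J) (G p q (j + 1) (K + 1))).ncard)) +
                2 * C * (e + q) * e ^ (J + 1) := Nat.add_le_add_right h1 _
            _ ≤ (d * (res (q ^ J) (G p q j (K + 1))).ncard + 2 * (C * e ^ (J + 1)) +
                q * (2 * (C * e ^ J))) + 2 * C * (e + q) * e ^ (J + 1) := by gcongr
            _ = d * (res (q ^ J) (G p q j (K + 1))).ncard + 2 * C * (e + q) * e ^ J * (e + 1) := by ring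
            _ ≤ d * (res (q ^ J) (G p q j (K + 1))).ncard + 2 * C * (e + q) * e ^ J * d := by gcongr
            _ = d * ((res (q ^ J) (G p q j (K + 1))).ncard + 2 * C * (e + q) * e ^ J) := by ring
            _ ≤ d * ((1 + 2 * C * (e + q)) * d ^ J) := Nat.mul_le_mul_left _ h4
            _ = (1 + 2 * C * (e + q)) * d ^ (J + 1) := by ring
      intro K J
      exact (Nat.le_add_right _ _).trans (key J K)
    · exact hzero j hj hd

theorem count_le (hq : 1 ≤ q) (hpq : q < p) (j : ℕ) (hj : 2 ≤ j) (K J : ℕ) (hJ : top p q K < q ^ J) :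
    {x : ℝ | (j : ℕ∞) ≤ (A p q x K).encard}.ncard ≤ (res (q ^ J) (G p q j K)).ncard := by
  have hsub : {x : ℝ | (j : ℕ∞) ≤ (A p q x K).encard} ⊆ {x : ℝ | 2 ≤ (A p q x K).encard} := by
    intro x hx
    have h3 : (j : ℕ∞) ≤ (A p q x K).encard := hx
    exact le_trans (by exact_mod_cast hj) h3
  refine Set.ncard_le_ncard_of_injOn (fun x : ℝ => sInf (A p q x K)) ?_ ((inj_two hq hpq K).mono hsub)
    (res_finite (pow_pos hq _) _)
  intro x hx
  obtain ⟨h1, h2⟩ := labels_j hq hpq K j hj x hx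
  exact ⟨_, ⟨x, h1, h2⟩, Nat.mod_eq_of_lt (lt_of_le_of_lt (le_top p q hq hpq K _ x h1) hJ)⟩

theorem final_sharp (p q : ℕ) (hq2 : 2 ≤ q) (hpq : q < p) (hcop : Nat.Coprime p q) :
    ∃ c C : ℝ, 0 < c ∧ ∀ K : ℕ, 1 ≤ K →
      {x : ℝ | 2 ≤ (pre p q x K).encard}.Finite ∧
      c * ((p : ℝ) / q) ^ K ≤ {x : ℝ | 2 ≤ (pre p q x K).encard}.ncard ∧
      ∀ j : ℕ, 2 ≤ j → (j - 2) * (p - q) < q →
        ({x : ℝ | (j : ℕ∞) ≤ (pre p q x K).encard}.ncard : ℝ) ≤
          C * (((p : ℝ) / q) ^ K) ^ (Real.log (q - (j - 2) * (p - q)) / Real.log q) := by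
  have hq : 1 ≤ q := by omega
  have hpq' : (q : ℝ) < p := by exact_mod_cast hpq
  have hqr : (2 : ℝ) ≤ q := by exact_mod_cast hq2
  have hpr : (0 : ℝ) < p := by linarith
  have hlogq : 0 < Real.log q := Real.log_pos (by linarith)
  have hexC : ∀ j : ℕ, ∃ C : ℕ, 2 ≤ j → ∀ K J : ℕ,
      (res (q ^ J) (G p q j K)).ncard ≤ C * (q - (j - 2) * (p - q)) ^ J := by
    intro j
    by_cases hj : 2 ≤ j
    · obtain ⟨C, hC⟩ := res_bound hq hpq hcop (q + 2) j hj (by omega)
      exact ⟨C, fun _ => hC⟩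
    · exact ⟨0, fun h => absurd h hj⟩
  choose C hC using hexC
  refine ⟨1 / (2 * (p + 1)), ((∑ i ∈ range (q + 2), C i : ℕ) : ℝ) * ((q : ℝ) * p), by positivity,
    fun K hK => ?_⟩
  have he : ∀ j : ℕ∞, {x : ℝ | j ≤ (pre p q x K).encard} = {x : ℝ | j ≤ (A p q x K).encard} := by
    intro j
    ext x
    show j ≤ (pre p q x K).encard ↔ j ≤ (A p q x K).encard
    rw [pre_encard p q hq hpq]
  obtain ⟨g1, g2⟩ := top_growth p q hq hpq K
  have hratio : 1 < (p : ℝ) / q := by
    rw [one_lt_div (by linarith)]; exact hpq'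
  have hpow : 1 < ((p : ℝ) / q) ^ K := one_lt_pow₀ hratio (by omega)
  have htop : 1 ≤ top p q K := by
    have : (0 : ℝ) < top p q K := by linarith
    exact_mod_cast this
  have htopr : (1 : ℝ) ≤ top p q K := by exact_mod_cast htop
  rw [he]
  refine ⟨fin_two hq hpq K, ?_, fun j hj hd => ?_⟩
  · have h1 : (top p q K : ℝ) ≤ (p + 1) * {x : ℝ | 2 ≤ (A p q x K).encard}.ncard := by
      exact_mod_cast lower_two hq hpq K
    rw [one_div_mul_eq_div, div_le_iff₀ (by positivity)]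
    nlinarith
  · rw [he]
    have hcast : ((q - (j - 2) * (p - q) : ℕ) : ℝ) = q - (j - 2) * (p - q) := by
      rw [Nat.cast_sub hd.le]
      push_cast [Nat.cast_sub hj, Nat.cast_sub hpq.le]
      ring
    have hone : (1 : ℝ) ≤ q - (j - 2) * (p - q) := by
      rw [← hcast]
      have : 1 ≤ q - (j - 2) * (p - q) := by omega
      exact_mod_cast this
    have hleq : (q : ℝ) - (j - 2) * (p - q) ≤ q := by
      rw [← hcast]
      have : q - (j - 2) * (p - q) ≤ q := Nat.sub_le _ _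
      exact_mod_cast this
    obtain ⟨θ, hθ⟩ : ∃ θ : ℝ, θ = Real.log (q - (j - 2) * (p - q)) / Real.log q := ⟨_, rfl⟩
    rw [← hθ]
    have hθ0 : 0 ≤ θ := by
      rw [hθ]
      exact div_nonneg (Real.log_nonneg hone) hlogq.le
    have hθ1 : θ ≤ 1 := by
      rw [hθ, div_le_one hlogq]
      exact Real.log_le_log (by linarith) hleq
    have hqθ : (q : ℝ) ^ θ = q - (j - 2) * (p - q) := by
      rw [Real.rpow_def_of_pos (by linarith), hθ, mul_div_cancel₀ _ hlogq.ne', Real.exp_log (by linarith)]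
    -- the number of digits
    obtain ⟨J, hJdef⟩ : ∃ J, J = Nat.log q (top p q K) + 1 := ⟨_, rfl⟩
    have hJ1 : 1 ≤ J := by omega
    have hJ2 : top p q K < q ^ J := by
      rw [hJdef]; exact Nat.lt_pow_succ_log_self (by omega) _
    have hJ3 : q ^ (J - 1) ≤ top p q K := by
      rw [hJdef, Nat.add_sub_cancel]
      exact Nat.pow_log_le_self q (by omega)
    have hJ3r : (q : ℝ) ^ (J - 1) ≤ p * ((p : ℝ) / q) ^ K := by
      have : ((q ^ (J - 1) : ℕ) : ℝ) ≤ top p q K := by exact_mod_cast hJ3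
      push_cast at this
      linarith
    have hup : ({x : ℝ | (j : ℕ∞) ≤ (A p q x K).encard}.ncard : ℝ) ≤ (C j : ℝ) * ((q : ℝ) ^ θ) ^ J := by
      rw [hqθ, ← hcast]
      exact_mod_cast (count_le hq hpq j hj K J hJ2).trans (hC j hj K J)
    have hpowJ : ((q : ℝ) ^ θ) ^ J ≤ ((q : ℝ) * p) * (((p : ℝ) / q) ^ K) ^ θ := by
      have hqp1 : (1 : ℝ) ≤ (q : ℝ) * p := by nlinarith
      have e1 : ((q : ℝ) ^ θ) ^ J ≤ ((q : ℝ) * p) ^ θ * (((p : ℝ) / q) ^ K) ^ θ := by
        rw [← Real.rpow_natCast, ← Real.rpow_mul (by linarith), mul_comm θ, Real.rpow_mul (by linarith),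
          Real.rpow_natCast, ← Real.mul_rpow (by positivity) (by positivity)]
        refine Real.rpow_le_rpow (by positivity) ?_ hθ0
        calc (q : ℝ) ^ J = q * q ^ (J - 1) := by
              rw [← pow_succ']; congr 1; omega
          _ ≤ q * (p * ((p : ℝ) / q) ^ K) := mul_le_mul_of_nonneg_left hJ3r (by linarith)
          _ = q * p * ((p : ℝ) / q) ^ K := by ring
      refine e1.trans (mul_le_mul_of_nonneg_right ?_ (by positivity))
      calc ((q : ℝ) * p) ^ θ ≤ ((q : ℝ) * p) ^ (1 : ℝ) := Real.rpow_le_rpow_of_exponent_le hqp1 hθ1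
        _ = (q : ℝ) * p := Real.rpow_one _
    have hjq : j < q + 2 := by
      by_contra hcon
      push Not at hcon
      have h1 : (j - 2) * 1 ≤ (j - 2) * (p - q) := Nat.mul_le_mul_left _ (by omega)
      omega
    have hCj : (C j : ℝ) ≤ ((∑ i ∈ range (q + 2), C i : ℕ) : ℝ) := by
      exact_mod_cast Finset.single_le_sum (f := C) (fun i _ => Nat.zero_le _) (Finset.mem_range.mpr hjq)
    calc ({x : ℝ | (j : ℕ∞) ≤ (A p q x K).encard}.ncard : ℝ) ≤ (C j : ℝ) * ((q : ℝ) ^ θ) ^ J := hup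
      _ ≤ ((∑ i ∈ range (q + 2), C i : ℕ) : ℝ) * (((q : ℝ) * p) * (((p : ℝ) / q) ^ K) ^ θ) := by
          gcongr
      _ = _ := by ring

end Pool.Agent.PQ
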